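import Pool.Agent.NH30.KU.Stm

/-!
# Task KU-ROOT: an irreducible integral polynomial without roots near to `a` has a large value at `a`
-/

set_option autoImplicit false

namespace Pool.Agent.NH30.KU

namespace Root

open Polynomial

variable {p : ℕ} [Fact p.Prime]

private theorem nsub (a b : ℂ_[p]) : ‖a - b‖ ≤ max ‖a‖ ‖b‖ := by
  have h := IsUltrametricDist.norm_add_le_max a (-b)
  rwa [norm_neg, ← sub_eq_add_neg] at h

private theorem norm_nat (n : ℕ) : ‖(n : ℂ_[p])‖ = ‖(n : ℚ_[p])‖ := by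
  have h := PadicComplex.norm_extends' p (n : ℚ_[p])
  rw [← h]
  congr 1
  simp

private theorem norm_int (n : ℤ) : ‖(n : ℂ_[p])‖ = ‖(n : ℚ_[p])‖ := by
  obtain ⟨m, rfl | rfl⟩ := n.eq_nat_or_neg
  · rw [Int.cast_natCast, Int.cast_natCast]
    exact norm_nat m
  · rw [Int.cast_neg, Int.cast_neg, Int.cast_natCast, Int.cast_natCast, norm_neg, norm_neg]
    exact norm_nat m

private theorem aeval_int {A : Type*} [CommRing A] (c : A) (G : Polynomial ℤ) :
    Polynomial.aeval c G = Polynomial.eval₂ (Int.castRingHom A) c G := rfl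

private theorem int_le_one (n : ℤ) : ‖(n : ℂ_[p])‖ ≤ 1 := by
  rw [norm_int]
  exact Padic.norm_int_le_one n

private theorem int_eq_one {n : ℤ} (hn : ¬ (p : ℤ) ∣ n) : ‖(n : ℂ_[p])‖ = 1 := by
  refine le_antisymm (int_le_one n) ?_
  rw [norm_int]
  by_contra h
  exact hn (Padic.norm_intCast_lt_one_iff.1 (not_le.1 h))

/-- One factor. -/
private theorem factor_le {a β : ℂ_[p]} {w : ℝ} (hw0 : 0 < w) (hw1 : w ≤ 1) (h : w ≤ ‖β - a‖) :
    max 1 ‖β‖ * w ≤ ‖β - a‖ * max 1 ‖a‖ := by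
  have hA : (1 : ℝ) ≤ max 1 ‖a‖ := le_max_left _ _
  rcases le_or_gt ‖β‖ (max 1 ‖a‖) with hb | hb
  · have h1 : max 1 ‖β‖ ≤ max 1 ‖a‖ := max_le hA hb
    calc max 1 ‖β‖ * w ≤ max 1 ‖a‖ * ‖β - a‖ :=
          mul_le_mul h1 h hw0.le (by linarith)
      _ = _ := mul_comm _ _
  · have h1 : 1 < ‖β‖ := lt_of_le_of_lt (le_max_left _ _) hb
    have h2 : ‖a‖ < ‖β‖ := lt_of_le_of_lt (le_max_right _ _) hb
    have h3 : ‖β‖ ≤ ‖β - a‖ := by
      by_contra hcon
      have h4 : β = (β - a) - (-a) := by ring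
      have h5 : ‖β‖ ≤ max ‖β - a‖ ‖-a‖ := by
        conv_lhs => rw [h4]
        exact nsub _ _
      rw [norm_neg] at h5
      rcases le_max_iff.1 h5 with h6 | h6
      · exact hcon h6
      · linarith
    rw [max_eq_right h1.le]
    calc ‖β‖ * w ≤ ‖β‖ * 1 := mul_le_mul_of_nonneg_left hw1 (norm_nonneg _)
      _ ≤ ‖β - a‖ * max 1 ‖a‖ := mul_le_mul h3 hA zero_le_one (norm_nonneg _)

/-- The coefficients of a product of linear factors. -/
private theorem coeff_le {a : ℂ_[p]} {w : ℝ} (hw0 : 0 < w) (hw1 : w ≤ 1) (l : ℂ_[p])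
    (S : Multiset ℂ_[p]) (hS : ∀ β ∈ S, w ≤ ‖β - a‖) (i : ℕ) :
    ‖(C l * (S.map fun β => X - C β).prod).coeff i‖ * w ^ S.card ≤
      ‖(C l * (S.map fun β => X - C β).prod).eval a‖ * max 1 ‖a‖ ^ S.card := by
  induction S using Multiset.induction_on generalizing i with
  | empty =>
    simp only [Multiset.map_zero, Multiset.prod_zero, mul_one, Multiset.card_zero, pow_zero,
      eval_C]
    rw [coeff_C]
    split_ifs
    · exact le_rfl
    · simp
  | cons β S ih =>
    have hS' : ∀ β ∈ S, w ≤ ‖β - a‖ := fun b hb => hS b (Multiset.mem_cons_of_mem hb)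
    have hβ : w ≤ ‖β - a‖ := hS β (Multiset.mem_cons_self _ _)
    set P : Polynomial ℂ_[p] := C l * (S.map fun β => X - C β).prod with hP
    have hprod : C l * ((β ::ₘ S).map fun β => X - C β).prod = (X - C β) * P := by
      rw [Multiset.map_cons, Multiset.prod_cons, hP]
      ring
    rw [hprod, Multiset.card_cons]
    have ih' := fun i => ih hS' i
    set M : ℝ := ‖P.eval a‖ * max 1 ‖a‖ ^ S.card with hM
    have hwk : 0 < w ^ S.card := by positivity
    have hM0 : 0 ≤ M := by positivity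
    have hcoef : ‖((X - C β) * P).coeff i‖ * w ^ S.card ≤ max 1 ‖β‖ * M := by
      have hb : ∀ j, ‖β * P.coeff j‖ * w ^ S.card ≤ max 1 ‖β‖ * M := by
        intro j
        rw [norm_mul, mul_assoc]
        exact mul_le_mul (le_max_right _ _) (ih' j) (by positivity) (by positivity)
      have hone : ∀ j, ‖P.coeff j‖ * w ^ S.card ≤ max 1 ‖β‖ * M := by
        intro j
        calc ‖P.coeff j‖ * w ^ S.card ≤ 1 * M := by rw [one_mul]; exact ih' j
          _ ≤ _ := mul_le_mul_of_nonneg_right (le_max_left _ _) hM0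
      rw [sub_mul, coeff_sub, coeff_C_mul]
      cases i with
      | zero =>
        rw [mul_coeff_zero, coeff_X_zero, zero_mul, zero_sub, norm_neg]
        exact hb 0
      | succ j =>
        rw [coeff_X_mul]
        rcases le_total ‖P.coeff j‖ ‖β * P.coeff (j + 1)‖ with h | h
        · calc _ ≤ ‖β * P.coeff (j + 1)‖ * w ^ S.card :=
                mul_le_mul_of_nonneg_right ((nsub _ _).trans (max_le h le_rfl)) hwk.le
            _ ≤ _ := hb _
        · calc _ ≤ ‖P.coeff j‖ * w ^ S.card :=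
                mul_le_mul_of_nonneg_right ((nsub _ _).trans (max_le le_rfl h)) hwk.le
            _ ≤ _ := hone _
    have heval : ‖((X - C β) * P).eval a‖ = ‖β - a‖ * ‖P.eval a‖ := by
      rw [eval_mul, eval_sub, eval_X, eval_C, norm_mul, norm_sub_rev]
    rw [heval, pow_succ, pow_succ]
    calc ‖((X - C β) * P).coeff i‖ * (w ^ S.card * w)
        = (‖((X - C β) * P).coeff i‖ * w ^ S.card) * w := by ring
      _ ≤ (max 1 ‖β‖ * M) * w := mul_le_mul_of_nonneg_right hcoef hw0.le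
      _ = (max 1 ‖β‖ * w) * M := by ring
      _ ≤ (‖β - a‖ * max 1 ‖a‖) * M :=
          mul_le_mul_of_nonneg_right (factor_le hw0 hw1 hβ) hM0
      _ = _ := by rw [hM]; ring

end Root

open Polynomial Root in
/-- Task KU-ROOT. -/
theorem s_root : S_ROOT := by
  intro p _ G a w hG hdeg hw0 hw1 hroot
  set ψ : ℤ →+* ℂ_[p] := Int.castRingHom ℂ_[p] with hψ
  have hψi : Function.Injective ψ := Int.cast_injective
  set f : Polynomial ℂ_[p] := G.map ψ with hf
  have hG0 : G ≠ 0 := hG.ne_zero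
  have hfd : f.natDegree = G.natDegree := natDegree_map_eq_of_injective hψi G
  have hf0 : f ≠ 0 := (Polynomial.map_ne_zero_iff hψi).2 hG0
  -- a coefficient which is a unit
  obtain ⟨i, hi⟩ : ∃ i, ¬ (p : ℤ) ∣ G.coeff i := by
    by_contra hcon
    push Not at hcon
    have hprim := hG.isPrimitive hdeg.ne'
    have h1 : IsUnit (p : ℤ) := hprim _ (C_dvd_iff_dvd_coeff _ _ |>.2 hcon)
    have h2 := Int.isUnit_iff_natAbs_eq.1 h1
    rw [Int.natAbs_natCast] at h2
    exact (Fact.out : p.Prime).one_lt.ne' h2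
  have hci : ‖f.coeff i‖ = 1 := by
    rw [hf, coeff_map]
    exact int_eq_one hi
  -- the factorisation
  have hsplit : f.Splits := IsAlgClosed.splits f
  have hcard : f.roots.card = f.natDegree := (splits_iff_card_roots.1 hsplit)
  have hfac : C f.leadingCoeff * (f.roots.map fun β => X - C β).prod = f :=
    C_leadingCoeff_mul_prod_multiset_X_sub_C hcard
  have hS : ∀ β ∈ f.roots, w ≤ ‖β - (a : ℂ_[p])‖ := by
    intro β hβ
    refine hroot β ?_
    have h1 := isRoot_of_mem_roots hβ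
    rw [IsRoot.def, hf, eval_map] at h1
    rw [aeval_def, RingHom.ext_int (algebraMap ℤ ℂ_[p]) ψ]
    exact h1
  have hmain := coeff_le hw0 hw1 f.leadingCoeff f.roots hS i
  rw [hfac, hci, one_mul, hcard, hfd] at hmain
  -- the denominator
  have hden : (a : ℂ_[p]) * (a.den : ℂ_[p]) = (a.num : ℂ_[p]) := by
    have := Rat.mul_den_eq_num a
    exact_mod_cast congrArg (fun q : ℚ => (q : ℂ_[p])) this
  have hnv := Y152.BD.Nv_map G a (a : ℂ_[p]) (by rw [mul_comm]; exact hden)
  rw [aeval_int, ← eval_map, ← hf] at hnv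
  rw [hnv, norm_mul, norm_pow]
  set δ : ℝ := ‖((a.den : ℕ) : ℂ_[p])‖ with hδ
  have hδ1 : δ ≤ 1 := by
    have := int_le_one (p := p) (a.den : ℤ)
    rwa [Int.cast_natCast] at this
  have hδ0 : 0 ≤ δ := norm_nonneg _
  have hAδ : max 1 ‖(a : ℂ_[p])‖ * δ ≤ 1 := by
    rcases le_total ‖(a : ℂ_[p])‖ 1 with h | h
    · rw [max_eq_left h, one_mul]
      exact hδ1
    · rw [max_eq_right h, hδ, ← norm_mul, hden]
      exact int_le_one _
  have hAδ' : (max 1 ‖(a : ℂ_[p])‖ * δ) ^ G.natDegree ≤ 1 :=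
    pow_le_one₀ (by positivity) hAδ
  calc (w * δ ^ 2) ^ G.natDegree = w ^ G.natDegree * (δ ^ G.natDegree * δ ^ G.natDegree) := by
        rw [mul_pow]
        ring
    _ ≤ (‖f.eval (a : ℂ_[p])‖ * max 1 ‖(a : ℂ_[p])‖ ^ G.natDegree) *
        (δ ^ G.natDegree * δ ^ G.natDegree) :=
        mul_le_mul_of_nonneg_right hmain (by positivity)
    _ = (δ ^ G.natDegree * ‖f.eval (a : ℂ_[p])‖) *
        (max 1 ‖(a : ℂ_[p])‖ * δ) ^ G.natDegree := by
        rw [mul_pow]
        ring
    _ ≤ (δ ^ G.natDegree * ‖f.eval (a : ℂ_[p])‖) * 1 :=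
        mul_le_mul_of_nonneg_left hAδ' (by positivity)
    _ = _ := mul_one _

end Pool.Agent.NH30.KU
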