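import Pool.Agent.NH30.KU.Loc
import Pool.Agent.NH30.KU.Root

/-!
# Members of bounded degree of starshaped families (helper30): divisibility
-/

set_option autoImplicit false

open Function MvPolynomial
open Pool.Agent.Y226 (nnat)
open Pool.Agent.NH30.KS (norm_rat)
open Pool.Agent.Y152.BD (Nv)

namespace Pool.Agent.NH30.KU

theorem norm_int {p : ℕ} [Fact p.Prime] (z : ℤ) : ‖(z : ℂ_[p])‖ = ‖(z : ℚ_[p])‖ := by
  have := norm_rat (p := p) (z : ℚ)
  push_cast at this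
  exact this

/-- Divisibility from inequalities at all places. -/
theorem dvd_fac {z w : ℤ} {P : ℕ}
    (h : ∀ (p : ℕ) [Fact p.Prime], ‖(w : ℂ_[p])‖ ≤ P * ‖(z : ℂ_[p])‖) :
    z ∣ w * (P.factorial : ℤ) := by
  rcases eq_or_ne w 0 with rfl | hw
  · simp
  rw [← Int.natAbs_dvd_natAbs, Nat.dvd_iff_prime_pow_dvd_dvd]
  intro p k hp hpk
  have hpf : Fact p.Prime := ⟨hp⟩
  have hp0 : (0 : ℝ) < p := by exact_mod_cast hp.pos
  have h1 : ((p : ℤ) ^ k) ∣ z := by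
    have := Int.natCast_dvd.2 hpk
    exact_mod_cast this
  have h2 : ‖(z : ℚ_[p])‖ ≤ (p : ℝ) ^ (-(k : ℤ)) := (Padic.norm_int_le_pow_iff_dvd z k).2 (by
    exact_mod_cast h1)
  have h3 := h p
  rw [norm_int, norm_int] at h3
  set v : ℕ := padicValInt p w with hv
  have h4 : ‖(w : ℚ_[p])‖ = (p : ℝ) ^ (-(v : ℤ)) := by
    rw [Padic.norm_eq_zpow_neg_valuation (by exact_mod_cast hw), Padic.valuation_intCast]
  have hvw : ((p : ℤ) ^ v) ∣ w := padicValInt_dvd w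
  suffices h5 : ((p : ℤ) ^ k) ∣ w * (P.factorial : ℤ) by
    have h6 : ((p ^ k : ℕ) : ℤ) ∣ w * (P.factorial : ℤ) := by
      push_cast
      exact h5
    exact Int.natCast_dvd.1 h6
  rcases le_or_gt k v with hkv | hkv
  · exact ((pow_dvd_pow (p : ℤ) hkv).trans hvw).mul_right _
  · obtain ⟨l, rfl⟩ : ∃ l, k = v + l := ⟨k - v, by omega⟩
    have h5 : (p : ℝ) ^ l ≤ P := by
      rw [h4] at h3
      have h6 : (p : ℝ) ^ (-(v : ℤ)) ≤ P * (p : ℝ) ^ (-((v + l : ℕ) : ℤ)) :=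
        h3.trans (by gcongr)
      have h7 : (p : ℝ) ^ (-((v + l : ℕ) : ℤ)) = (p : ℝ) ^ (-(v : ℤ)) * ((p : ℝ) ^ l)⁻¹ := by
        push_cast
        rw [neg_add, zpow_add₀ hp0.ne', zpow_neg (p : ℝ) (l : ℤ), zpow_natCast]
      rw [h7] at h6
      have h8 : (0 : ℝ) < (p : ℝ) ^ (-(v : ℤ)) := by positivity
      have h9 : (0 : ℝ) < (p : ℝ) ^ l := by positivity
      have h10 : (p : ℝ) ^ (-(v : ℤ)) * 1 ≤ (p : ℝ) ^ (-(v : ℤ)) * (P * ((p : ℝ) ^ l)⁻¹) := by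
        rw [mul_one]
        refine h6.trans (le_of_eq ?_)
        ring
      have h11 := le_of_mul_le_mul_left h10 h8
      rwa [← div_eq_mul_inv, le_div_iff₀ h9, one_mul] at h11
    have h6 : p ^ l ≤ P := by exact_mod_cast h5
    have h7 : p ^ l ∣ P.factorial := Nat.dvd_factorial (pow_pos hp.pos l) h6
    rw [pow_add]
    exact mul_dvd_mul hvw (by exact_mod_cast h7)

theorem natDegree_pos {t : ℂ} {G : Polynomial ℤ} (hG : Irreducible G)
    (ht : Polynomial.aeval t G = 0) : 0 < G.natDegree := by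
  by_contra hcon
  have h0 : G.natDegree = 0 := by omega
  obtain ⟨c, hc⟩ := Polynomial.natDegree_eq_zero.1 h0
  rw [← hc, Polynomial.aeval_C] at ht
  have h1 : (c : ℂ) = 0 := by
    rw [← ht]
    simp
  have h2 : c = 0 := by exact_mod_cast h1
  rw [h2, map_zero] at hc
  exact hG.ne_zero hc.symm

/-- The value of the minimal polynomial at `a` of a number which is nowhere near to `a`. -/
theorem value_dvd {t : ℂ} {G : Polynomial ℤ} (hG : Irreducible G)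
    (ht : Polynomial.aeval t G = 0) (a : ℚ) {M : ℕ} (hM : 0 < M) (D : ℕ)
    (h : ∀ (p : ℕ) [Fact p.Prime] (Φ : ℂ →+* ℂ_[p]),
      ‖(M : ℂ_[p])‖ ≤ 2 ^ D * ‖Φ t - (a : ℂ_[p])‖) :
    Nv G a ∣ ((M * a.den ^ 2 : ℕ) : ℤ) ^ G.natDegree * ((2 ^ (D * G.natDegree)).factorial : ℤ) := by
  have hd := natDegree_pos hG ht
  refine dvd_fac fun p hpf => ?_
  have hM0 : 0 < ‖(M : ℂ_[p])‖ := norm_pos_iff.2 (by exact_mod_cast hM.ne')
  have h2D : (1 : ℝ) ≤ 2 ^ D := one_le_pow₀ one_le_two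
  have h2D0 : (0 : ℝ) < 2 ^ D := by positivity
  have h1 := s_root p G a (‖(M : ℂ_[p])‖ / 2 ^ D) hG hd (by positivity)
    ((div_le_one h2D0).2 ((nnat M).trans h2D)) (fun β hβ => by
      obtain ⟨Φ, rfl⟩ := exists_alg_place hG ht hd β hβ
      rw [div_le_iff₀ h2D0, mul_comm]
      exact h p Φ)
  push_cast
  rw [norm_pow, norm_mul, norm_pow]
  have h2 : (‖(M : ℂ_[p])‖ * ‖((a.den : ℕ) : ℂ_[p])‖ ^ 2) ^ G.natDegree =
      2 ^ (D * G.natDegree) *
        (‖(M : ℂ_[p])‖ / 2 ^ D * ‖((a.den : ℕ) : ℂ_[p])‖ ^ 2) ^ G.natDegree := by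
    rw [pow_mul, ← mul_pow]
    congr 1
    field_simp
  rw [h2]
  gcongr

end Pool.Agent.NH30.KU
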