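import Mathlib
import Pool.Agent.Y152.BD.Nv
import Pool.Agent.Y152.RP.Stm

/-!
# Members of bounded degree of starshaped families (helper30): definitions and task statements
-/

set_option autoImplicit false

namespace Pool.Agent.NH30.KU

open MvPolynomial

/-- The value at `t` of a polynomial with coefficients in `K`. -/
noncomputable def evalAt (K : Subfield ℂ) (t : ℂ) : Polynomial K →+* ℂ :=
  (Polynomial.aeval t : Polynomial K →ₐ[K] ℂ).toRingHom

/-- The family of sets `X t`, `t` not in `E`, is starshaped at the rational number `a`, with at most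
`c j` centers for the coordinate `x j`: for all sets `J` of `m + 1` coordinates there is a polynomial
`H J (z, s)`, `s = t - a`, such that `H J ((t - a) ^ e j * x j, j ∈ J; t - a) = 0` for all
points `x` of `X t`, and `H J (z, 0)` is the product of `κ J ≠ 0` and factors `z j - γ`, `γ ∈ C j`
nonzero; the degree of `H J` in `z j` is not larger than that of `H J (z, 0)`. -/
def StarAt (K : Subfield ℂ) (E : Set ℂ) {n : ℕ} (m : ℕ) (c : Fin n → ℕ)
    (X : ℂ → Set (Fin n → ℂ)) (a : ℚ) : Prop :=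
  ∃ (e : Fin n → ℕ) (C : Fin n → Finset K)
    (H : ∀ J : Finset (Fin n), MvPolynomial J (Polynomial K))
    (k : ∀ J : Finset (Fin n), J → K → ℕ) (κ : Finset (Fin n) → K),
    (∀ i, 0 < e i ∧ 0 ∉ C i ∧ (C i).card ≤ c i) ∧
    ∀ J : Finset (Fin n), J.card = m + 1 → κ J ≠ 0 ∧
      (∀ u ∈ (H J).support, ∀ j : J, u j ≤ ∑ γ ∈ C j, k J j γ) ∧
      MvPolynomial.map (Polynomial.evalRingHom 0) (H J) =
        MvPolynomial.C (κ J) *
          ∏ j : J, ∏ γ ∈ C j, (MvPolynomial.X j - MvPolynomial.C γ) ^ k J j γ ∧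
      ∀ t ∉ E, ∀ x ∈ X t,
        eval₂ (evalAt K (t - a)) (fun j : J => (t - (a : ℂ)) ^ e j * x j) (H J) = 0

/-- The translate of `Y` by the vector of the values of the rational functions `P i / Q i` at `t`. -/
def shiftBy {K : Subfield ℂ} {n : ℕ} (P Q : Fin n → Polynomial K) (t : ℂ)
    (Y : Set (Fin n → ℂ)) : Set (Fin n → ℂ) :=
  {x | (fun i => x i - evalAt K t (P i) / evalAt K t (Q i)) ∈ Y}

/-- Task KU-TRANS. Translates by vectors of rational functions with a pole at `a`, of families in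
general position at infinity, are starshaped at `a`. -/
def S_TRANS : Prop := ∀ (K : Subfield ℂ) (n m : ℕ) (E : Set ℂ)
  (G : ∀ J : Finset (Fin n), MvPolynomial J (Polynomial K)) (d : ∀ J : Finset (Fin n), J →₀ ℕ),
  (∀ J : Finset (Fin n), J.card = m + 1 → ∀ u ∈ (G J).support, ∀ j, u j ≤ d J j) →
  ∀ Y : ℂ → Set (Fin n → ℂ), (∀ t ∉ E, ∀ y ∈ Y t, ∀ J : Finset (Fin n), J.card = m + 1 →
    eval₂ (evalAt K t) (fun j : J => y j) (G J) = 0) →
  ∀ P Q : Fin n → Polynomial K, (∀ i, Q i ≠ 0) → (∀ t ∉ E, ∀ i, evalAt K t (Q i) ≠ 0) →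
  ∀ a : ℚ, (∀ J : Finset (Fin n), J.card = m + 1 →
      ((G J).coeff (d J)).eval ((a : ℚ) : K) ≠ 0) →
    (∀ i, (P i).eval ((a : ℚ) : K) ≠ 0) → (∀ i, (Q i).eval ((a : ℚ) : K) = 0) →
    StarAt K E m (fun _ => 1) (fun t => shiftBy P Q t (Y t)) a

/-- Task KU-ROOT. An irreducible integral polynomial without roots near to `a` has a large value
at `a` (`p`-adically). -/
def S_ROOT : Prop := ∀ (p : ℕ) [Fact p.Prime] (G : Polynomial ℤ) (a : ℚ) (w : ℝ),
  Irreducible G → 0 < G.natDegree → 0 < w → w ≤ 1 →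
  (∀ β : ℂ_[p], Polynomial.aeval β G = 0 → w ≤ ‖β - (a : ℂ_[p])‖) →
  (w * ‖((a.den : ℕ) : ℂ_[p])‖ ^ 2) ^ G.natDegree ≤ ‖((Y152.BD.Nv G a : ℤ) : ℂ_[p])‖

/-- Task KU-FIN1. There are only finitely many algebraic numbers of degree less than the number of
elements of `T` (or integers, of at most this degree), whose minimal polynomials have bounded
values on `T`. -/
def S_FIN1 : Prop := ∀ (T : Finset ℚ) (B : ℕ), {t : ℂ | ∃ G : Polynomial ℤ, G ≠ 0 ∧
  Polynomial.aeval t G = 0 ∧ (G.natDegree < T.card ∨ (G.Monic ∧ G.natDegree ≤ T.card)) ∧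
  ∀ a ∈ T, |Y152.BD.Nv G a| ≤ (B : ℤ)}.Finite

/-- Task KU-FIN3. There are only finitely many elements of a number field such that the values of
their minimal polynomials at three rational numbers have no large prime factor. -/
def S_FIN3 : Prop := ∀ (F : IntermediateField ℚ ℂ) [FiniteDimensional ℚ F] (T : Finset ℚ) (D : ℕ),
  3 ≤ T.card → {t : ℂ | t ∈ F ∧ ∃ G : Polynomial ℤ, Irreducible G ∧ Polynomial.aeval t G = 0 ∧
    ∀ a ∈ T, Y152.RP.Smo D (Y152.BD.Nv G a)}.Finite

end Pool.Agent.NH30.KU
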