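import Mathlib
import Pool.Agent.NH30.KU.Stm

/-!
# Finitely many algebraic numbers with bounded values of the minimal polynomial
-/

set_option autoImplicit false

namespace Pool.Agent.NH30.KU

open Polynomial

lemma fin1_polys (T : Finset ℚ) (B : ℕ) : {G : Polynomial ℤ | G ≠ 0 ∧
    (G.natDegree < T.card ∨ (G.Monic ∧ G.natDegree ≤ T.card)) ∧
    ∀ a ∈ T, |Y152.BD.Nv G a| ≤ (B : ℤ)}.Finite := by
  apply Set.Finite.of_finite_image
    (f := fun G : Polynomial ℤ => (G.natDegree, fun a : T => Y152.BD.Nv G (a : ℚ)))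
  · apply Set.Finite.subset (Set.Finite.prod (Set.finite_Iic T.card)
      (Set.Finite.pi (t := fun _ : T => Set.Icc (-(B : ℤ)) B) (fun _ => Set.finite_Icc _ _)))
    rintro _ ⟨G, ⟨_, h1, h2⟩, rfl⟩
    constructor
    · show G.natDegree ≤ T.card
      rcases h1 with h1 | h1
      · exact h1.le
      · exact h1.2
    · intro a _
      exact abs_le.1 (h2 a a.2)
  · rintro G ⟨h0, h1, _⟩ G' ⟨h0', h1', _⟩ h
    simp only [Prod.mk.injEq] at h
    obtain ⟨hd, hv⟩ := h
    have hdeg : G.degree = G'.degree := by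
      rw [degree_eq_natDegree h0, degree_eq_natDegree h0', hd]
    have hlt : (G - G').degree < (T.card : WithBot ℕ) := by
      by_cases hc : G.natDegree < T.card
      · refine lt_of_le_of_lt (degree_sub_le G G') ?_
        rw [← hdeg, max_self, degree_eq_natDegree h0]
        exact_mod_cast hc
      · have hm : G.Monic ∧ G.natDegree ≤ T.card := h1.resolve_left hc
        have hm' : G'.Monic ∧ G'.natDegree ≤ T.card := h1'.resolve_left (by rw [← hd]; exact hc)
        refine lt_of_lt_of_le (degree_sub_lt_left hdeg h0 (hm.1.trans hm'.1.symm)) ?_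
        rw [degree_eq_natDegree h0]
        exact_mod_cast hm.2
    have hz : (G - G').map (Int.castRingHom ℚ) = 0 := by
      apply eq_zero_of_degree_lt_of_eval_finset_eq_zero T
      · rw [degree_map_eq_of_injective (RingHom.injective_int _)]
        exact hlt
      · intro a ha
        have h3 := Y152.BD.Nv_rat G a
        have h4 := Y152.BD.Nv_rat G' a
        have h5 : Y152.BD.Nv G a = Y152.BD.Nv G' a := congrFun hv ⟨a, ha⟩
        rw [h5] at h3
        rw [h3, hd] at h4
        have h6 : ((a.den : ℚ)) ^ G'.natDegree ≠ 0 :=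
          pow_ne_zero _ (by exact_mod_cast a.den_nz)
        have h7 := mul_left_cancel₀ h6 h4
        rw [eval_map, Polynomial.eval₂_sub]
        rw [aeval_def, aeval_def] at h7
        exact sub_eq_zero.2 h7
    have hz' := (Polynomial.map_eq_zero_iff (RingHom.injective_int (Int.castRingHom ℚ))).1 hz
    exact sub_eq_zero.1 hz'

theorem s_fin1 : S_FIN1 := by
  intro T B
  apply Set.Finite.subset ((fin1_polys T B).biUnion (t := fun G => {t : ℂ | aeval t G = 0 ∧ G ≠ 0}) ?_)
  · rintro t ⟨G, h0, ht, h1, h2⟩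
    exact Set.mem_biUnion (x := G) ⟨h0, h1, h2⟩ ⟨ht, h0⟩
  · intro G hG
    have h0 : G.map (Int.castRingHom ℂ) ≠ 0 :=
      (Polynomial.map_ne_zero_iff (RingHom.injective_int _)).2 hG.1
    apply Set.Finite.subset (Multiset.toFinset (G.map (Int.castRingHom ℂ)).roots).finite_toSet
    rintro t ⟨ht, _⟩
    rw [Finset.mem_coe, Multiset.mem_toFinset, mem_roots h0, IsRoot.def, eval_map]
    rw [aeval_def] at ht
    exact ht

end Pool.Agent.NH30.KU
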