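import Pool.Agent.NH30.KU.Stm
import Pool.Agent.Y474.RP.FinA
import Pool.Agent.Y475.RP.Unit
import Pool.Agent.Y239.RP.SE

/-!
# Task KU-FIN3 (helper90): smooth values at three rational numbers, in a number field
-/

set_option autoImplicit false

namespace Pool.Agent.NH30.KU

open Polynomial NumberField IsDedekindDomain Pool.Agent.Y152 Pool.Agent.Y152.RP

/-- A finite Galois extension of the rational numbers in the complex numbers which contains a given
number field and the imaginary unit. -/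
lemma fin3_field (F : IntermediateField ℚ ℂ) [FiniteDimensional ℚ F] :
    ∃ L : IntermediateField ℚ ℂ, FiniteDimensional ℚ L ∧ IsGalois ℚ L ∧ F ≤ L ∧
      Complex.I ∈ L := by
  have hI : IsIntegral ℚ Complex.I :=
    ⟨X ^ 2 + 1, by monicity!, by simp⟩
  haveI h1 : FiniteDimensional ℚ (IntermediateField.adjoin ℚ ({Complex.I} : Set ℂ)) :=
    IntermediateField.adjoin.finiteDimensional hI
  let M : IntermediateField ℚ ℂ := F ⊔ IntermediateField.adjoin ℚ ({Complex.I} : Set ℂ)
  haveI h2 : FiniteDimensional ℚ M := IntermediateField.finiteDimensional_sup F _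
  have hN : IsNormalClosure ℚ M (IntermediateField.normalClosure ℚ M ℂ) :=
    Algebra.IsAlgebraic.isNormalClosure_normalClosure fun x => IsAlgClosed.splits _
  have hle : M ≤ IntermediateField.normalClosure ℚ M ℂ := fun x hx =>
    AlgHom.fieldRange_le_normalClosure M.val ⟨⟨x, hx⟩, rfl⟩
  haveI := hN.normal
  refine ⟨IntermediateField.normalClosure ℚ M ℂ, inferInstance, ⟨⟩, ?_, ?_⟩
  · exact le_trans le_sup_left hle
  · have h3 : Complex.I ∈ IntermediateField.adjoin ℚ ({Complex.I} : Set ℂ) :=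
      IntermediateField.subset_adjoin ℚ _ rfl
    exact hle ((le_sup_right : IntermediateField.adjoin ℚ ({Complex.I} : Set ℂ) ≤ M) h3)

/-- The values of the translate of a polynomial. -/
lemma nv_taylor (G : ℤ[X]) (a : ℚ) (c : ℤ) : BD.Nv (taylor (-c) G) (a + c) = BD.Nv G a := by
  have h : ((BD.Nv (taylor (-c) G) (a + c) : ℤ) : ℚ) = ((BD.Nv G a : ℤ) : ℚ) := by
    rw [BD.Nv_rat, BD.Nv_rat, natDegree_taylor, Rat.add_intCast_den, taylor_apply, aeval_comp]
    congr 2
    simp
  exact_mod_cast h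

lemma irr_taylor (G : ℤ[X]) (c : ℤ) (hG : Irreducible G) : Irreducible (taylor c G) := by
  exact hG.map (taylorEquiv c)

/-- A large integer separates the absolute values. -/
lemma exists_shift (a : Fin 3 → ℚ) (ha : Function.Injective a) : ∃ c : ℤ,
    (∀ i, 0 < a i + c) ∧ ∀ i j, i ≠ j → |a i + c| ≠ |a j + c| := by
  obtain ⟨n, hn⟩ := exists_nat_gt (∑ i, |a i|)
  have h : ∀ i, 0 < a i + ((n : ℤ) : ℚ) := by
    intro i
    have h1 : |a i| ≤ ∑ i, |a i| :=
      Finset.single_le_sum (f := fun i => |a i|) (fun i _ => abs_nonneg _) (Finset.mem_univ i)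
    have h2 := neg_abs_le (a i)
    push_cast
    linarith
  refine ⟨n, h, fun i j hij heq => ?_⟩
  rw [abs_of_pos (h i), abs_of_pos (h j)] at heq
  exact hij (ha (by linarith))

/-- A bound for the primes which divide finitely many nonzero rational numbers. -/
lemma exists_bound (D : ℕ) (b : Fin 3 → ℚ) (hb : ∀ i, b i ≠ 0) : ∃ D' : ℕ, D ≤ D' ∧
    ∀ i, ∀ p : ℕ, p.Prime → D' < p → ¬ (p : ℤ) ∣ (b i).num ∧ ¬ p ∣ (b i).den := by
  refine ⟨D + ∑ i, ((b i).num.natAbs + (b i).den), Nat.le_add_right _ _, fun i p hp hlt => ?_⟩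
  have h1 : (b i).num.natAbs + (b i).den ≤ ∑ i, ((b i).num.natAbs + (b i).den) :=
    Finset.single_le_sum (f := fun i => (b i).num.natAbs + (b i).den)
      (fun i _ => Nat.zero_le _) (Finset.mem_univ i)
  constructor
  · intro hdvd
    have h2 : p ∣ (b i).num.natAbs := Int.natCast_dvd.1 hdvd
    have h3 : 0 < (b i).num.natAbs := Int.natAbs_pos.2 (Rat.num_ne_zero.2 (hb i))
    have h4 := Nat.le_of_dvd h3 h2
    omega
  · intro hdvd
    have h4 := Nat.le_of_dvd (b i).den_pos hdvd
    omega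

theorem s_fin3 : S_FIN3 := by
  intro F _ T D hT
  classical
  obtain ⟨T', hT'T, hT'⟩ := Finset.exists_subset_card_eq hT
  let e : Fin 3 ≃ T' := (Finset.equivFinOfCardEq hT').symm
  let a : Fin 3 → ℚ := fun i => (e i : ℚ)
  have haT : ∀ i, a i ∈ T := fun i => hT'T (e i).2
  have ha : Function.Injective a := Subtype.val_injective.comp e.injective
  obtain ⟨c, hc0, hc⟩ := exists_shift a ha
  let b : Fin 3 → ℚ := fun i => a i + c
  have hb0 : ∀ i, b i ≠ 0 := fun i => (hc0 i).ne'
  obtain ⟨D', hDD', hD'⟩ := exists_bound D b hb0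
  obtain ⟨L, hL1, hL2, hFL, hIL⟩ := fin3_field F
  haveI : NumberField L := ⟨⟩
  have hz : ∃ z : L, z ^ 2 = -1 := ⟨⟨Complex.I, hIL⟩, by
    apply Subtype.ext
    simp⟩
  have hfin := Y474.RP.finA L hz D' b hb0 hc hD' 1
  have hfin2 : ((fun κ : L => (κ : ℂ) - c) '' ({κ : L | Sol L D' b 1 κ} ∪ {0})).Finite :=
    (hfin.union (Set.finite_singleton 0)).image _
  refine hfin2.subset ?_
  rintro t ⟨htF, G, hG, hGt, hsm⟩
  have htL : t + c ∈ L := L.add_mem (hFL htF) (intCast_mem L c)
  refine ⟨⟨t + c, htL⟩, ?_, by simp⟩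
  by_cases h0 : (⟨t + c, htL⟩ : L) = 0
  · exact Or.inr h0
  · refine Or.inl ⟨one_pos, h0, fun i w hw => ?_⟩
    have hroot : aeval (t + c) (taylor (-c) G) = 0 := by
      rw [taylor_apply, aeval_comp]
      simpa using hGt
    have hS : Smo D' (BD.Nv (taylor (-c) G) (b i)) := by
      intro p hp hlt
      change ¬ (p : ℤ) ∣ BD.Nv (taylor (-c) G) (a i + c)
      rw [nv_taylor]
      exact hsm (a i) (haT i) p hp (lt_of_le_of_lt hDD' hlt)
    have hbad := Y239.RP.SE.scale D' (t + c) (b i) (hb0 i) _ (irr_taylor G (-c) hG) hroot hS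
    have h := Y475.RP.unit L L.val.toRingHom D' ⟨t + c, htL⟩ (b i) (hD' i) hbad w hw
    rw [pow_one]
    exact h

end Pool.Agent.NH30.KU
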