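import Pool.Agent.NH30.KU.Main

/-!
# Members of bounded degree of starshaped families (helper30): the final form
-/

set_option autoImplicit false

open Function MvPolynomial

namespace Pool.Agent.NH30.KU

theorem StarAt.mono {K : Subfield ℂ} {E E' : Set ℂ} (hE : E ⊆ E') {n m : ℕ} {c : Fin n → ℕ}
    {X : ℂ → Set (Fin n → ℂ)} {a : ℚ} (h : StarAt K E m c X a) : StarAt K E' m c X a := by
  obtain ⟨e, C, H, k, κ, h1, h2⟩ := h
  exact ⟨e, C, H, k, κ, h1, fun J hJ => ⟨(h2 J hJ).1, (h2 J hJ).2.1, (h2 J hJ).2.2.1,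
    fun t ht => (h2 J hJ).2.2.2 t fun h => ht (hE h)⟩⟩

theorem final (K : Subfield ℂ) (hK : ∀ z ∈ K, IsAlgebraic ℚ z) (n m : ℕ) (T : Finset ℚ) :
    (∀ E : Set ℂ, E.Finite → (∀ t ∈ E, IsAlgebraic ℚ t) → ∀ (c : Fin n → ℕ)
      (X : ℂ → Set (Fin n → ℂ)), (∀ a ∈ T, StarAt K E m c X a) →
      AlmostAllMembers K T m (fun i j => (c i * c j : ℕ)) X) ∧
    ∀ (G : ∀ J : Finset (Fin n), MvPolynomial J (Polynomial K))
      (d : ∀ J : Finset (Fin n), J →₀ ℕ),
      (∀ J : Finset (Fin n), J.card = m + 1 → ∀ u ∈ (G J).support, ∀ j, u j ≤ d J j) →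
      (∀ J : Finset (Fin n), J.card = m + 1 → ∀ a ∈ T,
        ((G J).coeff (d J)).eval ((a : ℚ) : K) ≠ 0) →
      ∀ Y : ℂ → Set (Fin n → ℂ),
      (∀ t, ∀ y ∈ Y t, ∀ J : Finset (Fin n), J.card = m + 1 →
        eval₂ (evalAt K t) (fun j : J => y j) (G J) = 0) →
      ∀ P Q : Fin n → Polynomial K, (∀ i, Q i ≠ 0) →
      (∀ i, ∀ a ∈ T, (P i).eval ((a : ℚ) : K) ≠ 0) →
      (∀ i, ∀ a ∈ T, (Q i).eval ((a : ℚ) : K) = 0) →
      AlmostAllMembers K T m (fun _ _ => 1) (fun t => shiftBy P Q t (Y t)) := by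
  classical
  refine ⟨fun E hE hEalg c X hX => ?_, fun G d hd htop Y hY P Q hQ0 hP hQ => ?_⟩
  · refine main K hK (E := E ∪ (fun a : ℚ => (a : ℂ)) '' T) (hE.union (T.finite_toSet.image _))
      ?_ (fun a ha => Or.inr ⟨a, ha, rfl⟩) fun a ha => (hX a ha).mono Set.subset_union_left
    rintro t (ht | ⟨a, -, rfl⟩)
    · exact hEalg t ht
    · have := isAlgebraic_algebraMap (R := ℚ) (A := ℂ) a
      simpa using this
  · let E : Set ℂ := (⋃ i : Fin n, {t : ℂ | evalAt K t (Q i) = 0}) ∪ (fun a : ℚ => (a : ℂ)) '' T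
    have hroot : ∀ i, {t : ℂ | evalAt K t (Q i) = 0} ⊆ ((Q i).aroots ℂ).toFinset := by
      intro i t ht
      rw [Finset.mem_coe, Multiset.mem_toFinset, Polynomial.mem_aroots]
      exact ⟨hQ0 i, ht⟩
    have hEf : E.Finite := by
      refine Set.Finite.union (Set.finite_iUnion fun i => ?_) (T.finite_toSet.image _)
      exact (Finset.finite_toSet _).subset (hroot i)
    have hEalg : ∀ t ∈ E, IsAlgebraic ℚ t := by
      rintro t (ht | ⟨a, -, rfl⟩)
      · obtain ⟨i, hi⟩ := Set.mem_iUnion.1 ht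
        have h1 : IsAlgebraic K t := ⟨Q i, hQ0 i, hi⟩
        have hQ' : Algebra.IsAlgebraic ℚ K := ⟨fun z =>
          (isAlgebraic_algebraMap_iff (R := ℚ) (S := K) (A := ℂ) (algebraMap K ℂ).injective).1
            (hK z z.2)⟩
        exact h1.restrictScalars ℚ
      · have := isAlgebraic_algebraMap (R := ℚ) (A := ℂ) a
        simpa using this
    have h := main K hK hEf hEalg (n := n) (m := m) (c := fun _ => 1)
      (X := fun t => shiftBy P Q t (Y t)) (T := T) (fun a ha => Or.inr ⟨a, ha, rfl⟩)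
      fun a ha => s_trans K n m E G d hd Y (fun t _ => hY t) P Q hQ0
        (fun t ht i hi => ht (Or.inl (Set.mem_iUnion.2 ⟨i, hi⟩))) a (fun J hJ => htop J hJ a ha)
        (fun i => hP i a ha) (fun i => hQ i a ha)
    simpa using h

end Pool.Agent.NH30.KU
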