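import Pool.Agent.NH30.KS.Rat
import Pool.Agent.NH30.KU.Stm

/-!
# Members of bounded degree of starshaped families (helper30): existence of places
-/

set_option autoImplicit false

open Function MvPolynomial
open Pool.Agent.NH30.KS (s_emb exists_place)

namespace Pool.Agent.NH30.KU

/-- an irreducible integral polynomial is, up to a factor, the minimal polynomial of its roots -/
theorem aeval_eq_of_minpoly {t : ℂ} {G : Polynomial ℤ} (hG : Irreducible G)
    (ht : Polynomial.aeval t G = 0) (hd : 0 < G.natDegree) :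
    ∃ c : ℚ, c ≠ 0 ∧ G.map (Int.castRingHom ℚ) = Polynomial.C c * minpoly ℚ t := by
  have hprim : G.IsPrimitive := hG.isPrimitive hd.ne'
  have h1 : Irreducible (G.map (Int.castRingHom ℚ)) :=
    (Polynomial.IsPrimitive.Int.irreducible_iff_irreducible_map_cast hprim).1 hG
  have h2 : Polynomial.aeval t (G.map (Int.castRingHom ℚ)) = 0 := by
    rw [← ht]
    exact Polynomial.aeval_map_algebraMap ℚ t G
  have hint : IsIntegral ℚ t := by
    rw [← isAlgebraic_iff_isIntegral]
    exact ⟨_, h1.ne_zero, h2⟩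
  have h3 : minpoly ℚ t ∣ G.map (Int.castRingHom ℚ) := minpoly.dvd ℚ t h2
  obtain ⟨q, hq⟩ := h3
  have h4 : IsUnit q := by
    rcases h1.isUnit_or_isUnit hq with h | h
    · exact absurd h (minpoly.not_isUnit ℚ t)
    · exact h
  obtain ⟨c, hc, hcq⟩ := Polynomial.isUnit_iff.1 h4
  refine ⟨c, hc.ne_zero, ?_⟩
  rw [hq, ← hcq, mul_comm]

/-- An algebraic number can be mapped to each root of its minimal polynomial. -/
theorem exists_alg_place {p : ℕ} [hpf : Fact p.Prime] {t : ℂ} {G : Polynomial ℤ}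
    (hG : Irreducible G) (ht : Polynomial.aeval t G = 0) (hd : 0 < G.natDegree) (β : ℂ_[p])
    (hβ : Polynomial.aeval β G = 0) : ∃ Φ : ℂ →+* ℂ_[p], Φ t = β := by
  obtain ⟨c, hc, hGc⟩ := aeval_eq_of_minpoly hG ht hd
  have hint : IsIntegral ℚ t := by
    rw [← isAlgebraic_iff_isIntegral]
    refine ⟨G.map (Int.castRingHom ℚ), ?_, ?_⟩
    · rw [Ne, Polynomial.map_eq_zero_iff (RingHom.injective_int _)]
      exact hG.ne_zero
    · rw [← ht]
      exact Polynomial.aeval_map_algebraMap ℚ t G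
  have hβ' : Polynomial.aeval β (minpoly ℚ t) = 0 := by
    have h1 : Polynomial.aeval β (G.map (Int.castRingHom ℚ)) = 0 := by
      rw [← hβ]
      exact Polynomial.aeval_map_algebraMap ℚ β G
    rw [hGc, map_mul, Polynomial.aeval_C] at h1
    rcases mul_eq_zero.1 h1 with h | h
    · exact absurd h ((map_ne_zero _).2 hc)
    · exact h
  have hmem : β ∈ (minpoly ℚ t).aroots ℂ_[p] :=
    Polynomial.mem_aroots.2 ⟨minpoly.ne_zero hint, hβ'⟩
  let φ : IntermediateField.adjoin ℚ {t} →ₐ[ℚ] ℂ_[p] :=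
    (IntermediateField.algHomAdjoinIntegralEquiv ℚ hint).symm ⟨β, hmem⟩
  have hφ : φ (IntermediateField.AdjoinSimple.gen ℚ t) = β :=
    IntermediateField.algHomAdjoinIntegralEquiv_symm_apply_gen ℚ hint ⟨β, hmem⟩
  let K : Subfield ℂ := (IntermediateField.adjoin ℚ {t}).toSubfield
  have hK : ∀ z ∈ K, IsAlgebraic ℚ z := by
    intro z hz
    have : FiniteDimensional ℚ (IntermediateField.adjoin ℚ {t}) :=
      IntermediateField.adjoin.finiteDimensional hint
    have h1 : IsAlgebraic ℚ (⟨z, hz⟩ : IntermediateField.adjoin ℚ {t}) :=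
      Algebra.IsAlgebraic.isAlgebraic _
    exact h1.algebraMap (A := ℂ)
  have hcount : Countable K := Pool.Agent.NH30.KS.countable_of_algebraic K hK
  obtain ⟨Φ, hΦ, -⟩ := s_emb p K (φ : IntermediateField.adjoin ℚ {t} →+* ℂ_[p]) Empty Empty.elim
    (algebraicIndependent_empty_type_iff.2 (RingHom.injective _))
  refine ⟨Φ, ?_⟩
  rw [← hφ]
  exact hΦ (IntermediateField.AdjoinSimple.gen ℚ t)

/-- A transcendental number can be mapped near to each rational number. -/
theorem exists_tr_place (p : ℕ) [hpf : Fact p.Prime] {t : ℂ} (ht : Transcendental ℚ t) (a : ℚ)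
    (k : ℕ) : ∃ Φ : ℂ →+* ℂ_[p], ‖Φ t - (a : ℂ_[p])‖ ≤ ‖((p : ℕ) : ℂ_[p])‖ ^ k := by
  let K : Subfield ℂ := (⊥ : IntermediateField ℚ ℂ).toSubfield
  have hK : ∀ z ∈ K, IsAlgebraic ℚ z := by
    intro z hz
    obtain ⟨q, rfl⟩ := IntermediateField.mem_bot.1 hz
    exact isAlgebraic_algebraMap q
  have hcount : Countable K := Pool.Agent.NH30.KS.countable_of_algebraic K hK
  obtain ⟨φ⟩ := exists_place K hK p
  have hpk : ((p : ℂ) ^ k) ≠ 0 := pow_ne_zero _ (by exact_mod_cast hpf.out.ne_zero)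
  have h1 : Transcendental K ((t - a) / (p : ℂ) ^ k) := by
    intro h
    apply ht
    have hQ : Algebra.IsAlgebraic ℚ K := ⟨fun z =>
      (isAlgebraic_algebraMap_iff (R := ℚ) (S := K) (A := ℂ) (algebraMap K ℂ).injective).1
        (hK z z.2)⟩
    have h2 : IsAlgebraic ℚ ((t - a) / (p : ℂ) ^ k) := h.restrictScalars ℚ
    have h3 : t = ((t - a) / (p : ℂ) ^ k) * (p : ℂ) ^ k + a := by
      rw [div_mul_cancel₀ _ hpk, sub_add_cancel]
    rw [h3]
    have h4 : IsAlgebraic ℚ ((p : ℂ) ^ k) := by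
      have := isAlgebraic_algebraMap (R := ℚ) (A := ℂ) ((p : ℚ) ^ k)
      simpa using this
    have h5 : IsAlgebraic ℚ ((a : ℚ) : ℂ) := by
      have := isAlgebraic_algebraMap (R := ℚ) (A := ℂ) a
      simpa using this
    exact (h2.mul h4).add h5
  obtain ⟨Φ, -, hΦ⟩ := s_emb p K φ Unit (fun _ => (t - a) / (p : ℂ) ^ k)
    (algebraicIndependent_unique_type_iff.2 h1)
  refine ⟨Φ, ?_⟩
  have h2 := hΦ ()
  have h3 : Φ t - (a : ℂ_[p]) = Φ ((t - a) / (p : ℂ) ^ k) * ((p : ℕ) : ℂ_[p]) ^ k := by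
    rw [← map_natCast Φ, ← map_pow, ← map_mul, div_mul_cancel₀ _ hpk, map_sub, map_ratCast]
  rw [h3, norm_mul, norm_pow]
  exact mul_le_of_le_one_left (by positivity) h2

end Pool.Agent.NH30.KU
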