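import Pool.Agent.NH30.KU.Near
import Pool.Agent.NH30.KU.Place

/-!
# Members of bounded degree of starshaped families (helper30): the members near to a starshaped one
-/

set_option autoImplicit false

open Function MvPolynomial
open Pool.Agent.Y226 (nadd_le nsub_le nmul_le nmul_le' neq_of_sub_lt nnat)
open Pool.Agent.NH30.KS (Near levels levelSet ZPin intRing local_thm s_emb levelSet_finite
  levels_unique)

namespace Pool.Agent.NH30.KU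

/-- The conjecture of Zilber and Pink for the member `X` with the parameter `t`: there are finite sets
`L i j` of numbers, with at most `b i j` elements, such that the atypical intersections of `X` with
all special subvarieties are contained in the special hypersurfaces which are given by an isogeny of
degree `N ∈ L i j`, `N > 0` (see `ZPin`), between two coordinates `x i`, `x j`. -/
def Good (K : Subfield ℂ) {n : ℕ} (m : ℕ) (X : Set (Fin n → ℂ)) (t : ℂ)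
    (b : Fin n → Fin n → ℕ∞) : Prop :=
  ∃ L : Fin n → Fin n → Set ℕ, (∀ i j, (L i j).Finite ∧ (L i j).encard ≤ b i j) ∧
    ∀ K' : Subfield ℂ, Countable K' → K ≤ K' → t ∈ K' → ZPin K' ⊥ m X L

theorem Good.mono {K : Subfield ℂ} {n m : ℕ} {X : Set (Fin n → ℂ)} {t : ℂ}
    {b b' : Fin n → Fin n → ℕ∞} (h : ∀ i j, b i j ≤ b' i j) (hX : Good K m X t b) :
    Good K m X t b' := by
  obtain ⟨L, hL, h2⟩ := hX
  exact ⟨L, fun i j => ⟨(hL i j).1, (hL i j).2.trans (h i j)⟩, h2⟩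

theorem exists_rho_pow {r : ℝ} (hr0 : 0 ≤ r) (hr : r < 1) (D : ℕ) :
    ∃ ρ : ℝ, 0 < ρ ∧ ρ < 1 ∧ r < ρ ^ (D + 1) := by
  set x : ℝ := -((1 - r) / (2 * (D + 1))) with hx
  have hD : (1 : ℝ) ≤ D + 1 := by
    have : (0 : ℝ) ≤ D := Nat.cast_nonneg D
    linarith
  have h0 : 0 < (1 - r) / (2 * ((D : ℝ) + 1)) := by
    apply div_pos <;> linarith
  have h1 : (1 - r) / (2 * ((D : ℝ) + 1)) ≤ 1 / 2 := by
    rw [div_le_div_iff₀ (by linarith) (by norm_num)]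
    nlinarith
  refine ⟨1 + x, by rw [hx]; linarith, by rw [hx]; linarith, ?_⟩
  have h2 := one_add_mul_le_pow (a := x) (by rw [hx]; linarith) (D + 1)
  have h3 : ((D + 1 : ℕ) : ℝ) * x = -((1 - r) / 2) := by
    rw [hx]
    push_cast
    field_simp
  rw [h3] at h2
  refine lt_of_lt_of_le ?_ h2
  linarith

theorem encard_levelSet {p : ℕ} [hpf : Fact p.Prime] {n : ℕ} {R : Fin n → Finset ℂ_[p]} {ρ : ℝ}
    (hρ : ρ < 1 / 2) (hR : ∀ i, ∀ c ∈ R i, 1 ≤ ρ * ‖c‖) (i j : Fin n) :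
    (levelSet R ρ i j).encard ≤ ((R i).card * (R j).card : ℕ) := by
  classical
  have hone : ∀ i, ∀ c ∈ R i, 1 < ‖c‖ := by
    intro i c hc
    have h2 := hR i c hc
    have hρ0 : 0 < ρ := by
      by_contra hcon
      push Not at hcon
      have : ρ * ‖c‖ ≤ 0 := mul_nonpos_of_nonpos_of_nonneg hcon (norm_nonneg _)
      linarith
    nlinarith [norm_nonneg c]
  have hex : ∀ N : ℕ, ∃ cc : ℂ_[p] × ℂ_[p], N ∈ levelSet R ρ i j →
      cc.1 ∈ R i ∧ cc.2 ∈ R j ∧ N ∈ levels p ρ cc.1 cc.2 := by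
    intro N
    by_cases h : N ∈ levelSet R ρ i j
    · obtain ⟨c, hc, c', hc', hN⟩ := h
      exact ⟨(c, c'), fun _ => ⟨hc, hc', hN⟩⟩
    · exact ⟨(0, 0), fun h' => absurd h' h⟩
  choose f hf using hex
  have h1 : Set.MapsTo f (levelSet R ρ i j) ((R i ×ˢ R j : Finset (ℂ_[p] × ℂ_[p])) : Set _) := by
    intro N hN
    obtain ⟨h1, h2, -⟩ := hf N hN
    exact Finset.mem_coe.2 (Finset.mem_product.2 ⟨h1, h2⟩)
  have h2 : Set.InjOn f (levelSet R ρ i j) := by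
    intro N hN N' hN' heq
    obtain ⟨h1, h2, h3⟩ := hf N hN
    obtain ⟨-, -, h3'⟩ := hf N' hN'
    rw [← heq] at h3'
    exact levels_unique hρ (hone i _ h1) (hone j _ h2) h3 h3'
  have h3 := Set.encard_le_encard_of_injOn h1 h2
  rw [Set.encard_coe_eq_coe_finsetCard, Finset.card_product] at h3
  exact h3

/-- The members of a family near to a starshaped member satisfy the conjecture. -/
theorem core {p : ℕ} [hpf : Fact p.Prime] {K : Subfield ℂ} {n m : ℕ} {e : Fin n → ℕ}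
    (he : ∀ i, 0 < e i) {C : Fin n → Finset K}
    {H : ∀ J : Finset (Fin n), MvPolynomial J (Polynomial K)}
    {k : ∀ J : Finset (Fin n), J → K → ℕ} {κ : Finset (Fin n) → K}
    (hdeg : ∀ J : Finset (Fin n), J.card = m + 1 → ∀ u ∈ (H J).support, ∀ j : J,
      u j ≤ ∑ γ ∈ C j, k J j γ)
    (hH : ∀ J : Finset (Fin n), J.card = m + 1 →
      MvPolynomial.map (Polynomial.evalRingHom 0) (H J) = MvPolynomial.C (κ J) *
          ∏ j : J, ∏ γ ∈ C j, (MvPolynomial.X j - MvPolynomial.C γ) ^ k J j γ)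
    {D : ℕ} (hD : ∀ J : Finset (Fin n), ∑ j : J, ∑ γ ∈ C j, k J j γ ≤ D)
    (Φ : ℂ →+* ℂ_[p]) {μ : ℝ} (hμ0 : 0 < μ) (hμ1 : μ ≤ 1)
    (hκ : ∀ J : Finset (Fin n), J.card = m + 1 → μ ≤ ‖Φ (κ J : ℂ)‖)
    (hC : ∀ j, ∀ γ ∈ C j, μ ≤ ‖Φ (γ : ℂ)‖)
    (hcoef : ∀ (J : Finset (Fin n)) u i, ‖Φ ((((H J).coeff u).coeff i : K) : ℂ)‖ ≤ μ⁻¹)
    {X : Set (Fin n → ℂ)} {t : ℂ} {a : ℚ} (hta : t ≠ a)
    (hX : ∀ x ∈ X, ∀ J : Finset (Fin n), J.card = m + 1 →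
      eval₂ (evalAt K (t - a)) (fun j : J => (t - (a : ℂ)) ^ e j * x j) (H J) = 0)
    {ρ : ℝ} (hρ0 : 0 < ρ) (hρ1 : ρ < 1) (hs : ‖Φ (t - a)‖ < ρ ^ (D + 1) * μ ^ (D + 2)) :
    ∃ R : Fin n → Finset ℂ_[p], (∀ i, ∀ c ∈ R i, 1 ≤ ρ * ‖c‖) ∧ (∀ i, (R i).card ≤ (C i).card) ∧
      ∀ K' : Subfield ℂ, Countable K' → K ≤ K' → t ∈ K' → ZPin K' ⊥ m X (levelSet R ρ) := by
  classical
  have hτ0 : 0 < ‖Φ (t - a)‖ := norm_pos_iff.2 ((map_ne_zero Φ).2 (sub_ne_zero.2 hta))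
  have hs2 : ‖Φ (t - a)‖ < ρ ^ D * μ ^ (D + 2) := by
    refine hs.trans_le ?_
    gcongr ?_ * _
    exact pow_le_pow_of_le_one hρ0.le hρ1.le (Nat.le_succ D)
  have hs3 : ‖Φ (t - a)‖ ≤ ρ * μ := by
    refine hs.le.trans ?_
    have h1 : ρ ^ (D + 1) ≤ ρ := by
      calc ρ ^ (D + 1) ≤ ρ ^ 1 := pow_le_pow_of_le_one hρ0.le hρ1.le (by omega)
        _ = ρ := pow_one ρ
    have h2 : μ ^ (D + 2) ≤ μ := by
      calc μ ^ (D + 2) ≤ μ ^ 1 := pow_le_pow_of_le_one hμ0.le hμ1 (by omega)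
        _ = μ := pow_one μ
    gcongr
  have hs1 : ‖Φ (t - a)‖ ≤ 1 := hs3.trans (mul_le_one₀ hρ1.le hμ0.le hμ1)
  have hR : ∀ i, ∀ c ∈ (C i).image (fun γ : K => Φ (γ : ℂ) / Φ (t - a) ^ e i), 1 ≤ ρ * ‖c‖ := by
    intro i c hc
    obtain ⟨γ, hγ, rfl⟩ := Finset.mem_image.1 hc
    rw [norm_div, norm_pow, ← mul_div_assoc, le_div_iff₀ (by positivity), one_mul]
    calc ‖Φ (t - a)‖ ^ e i ≤ ‖Φ (t - a)‖ ^ 1 :=
          pow_le_pow_of_le_one hτ0.le hs1 (he i)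
      _ = ‖Φ (t - a)‖ := pow_one _
      _ ≤ ρ * μ := hs3
      _ ≤ ρ * ‖Φ (γ : ℂ)‖ := by
          gcongr
          exact hC i γ hγ
  refine ⟨fun i => (C i).image (fun γ : K => Φ (γ : ℂ) / Φ (t - a) ^ e i), hR,
    fun i => Finset.card_image_le, fun K' hK' hKK' htK' => ?_⟩
  have h := local_thm s_emb hρ1 hR K' (Φ.comp (algebraMap K' ℂ)) (m := m) (X := X) (by
    intro x hx Φ' hΦ' J hJ
    have hK1 : ∀ z : K, Φ' (z : ℂ) = Φ (z : ℂ) := fun z => hΦ' ⟨z, hKK' z.2⟩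
    have ht1 : Φ' (t - a) = Φ (t - a) := by
      rw [map_sub, map_sub, map_ratCast, map_ratCast]
      congr 1
      exact hΦ' ⟨t, htK'⟩
    have h1 := congrArg Φ' (hX x hx J hJ)
    rw [map_zero, hom_eval₂] at h1
    obtain ⟨j, γ, hγ, hnear⟩ := near_of_zero (fun j : J => C j) (H J) (k J) (κ J) (hdeg J hJ)
      (hH J hJ) Φ' (t - a) (hD J) hμ0 hμ1 (by rw [hK1]; exact hκ J hJ) (fun j γ hγ => by
        rw [hK1]; exact hC j γ hγ) (fun u i => by rw [hK1]; exact hcoef J u i) hρ0 hρ1.le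
      (by rw [ht1]; exact hs2) _ h1
    refine ⟨j, j.2, Φ (γ : ℂ) / Φ (t - a) ^ e j, Finset.mem_image.2 ⟨γ, hγ, rfl⟩, ?_⟩
    have h2 : Φ' (x j) - Φ (γ : ℂ) / Φ (t - a) ^ e j =
        (Φ' ((t - (a : ℂ)) ^ e j * x j) - Φ' (γ : ℂ)) / Φ (t - a) ^ e j := by
      rw [hK1, map_mul, map_pow, ht1, sub_div, mul_div_cancel_left₀]
      exact pow_ne_zero _ (norm_pos_iff.1 hτ0)
    rw [h2, norm_div, norm_div, norm_pow, ← mul_div_assoc, ← hK1]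
    gcongr)
  refine h.mono ?_ fun i j => le_rfl
  intro z hz
  have hz' : z ∈ (⊥ : Subring ℂ) := hz
  obtain ⟨k, rfl⟩ := Subring.mem_bot.1 hz'
  exact intCast_mem _ k

/-- **The members near to starshaped ones.** -/
theorem loc1 (K : Subfield ℂ) (hK : ∀ z ∈ K, IsAlgebraic ℚ z) {E : Set ℂ} {n m : ℕ}
    {c : Fin n → ℕ} {X : ℂ → Set (Fin n → ℂ)} {a : ℚ} (haE : (a : ℂ) ∈ E)
    (hX : StarAt K E m c X a) : ∃ M D : ℕ, 0 < M ∧ ∀ (p : ℕ) [Fact p.Prime] (Φ : ℂ →+* ℂ_[p]),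
      ∀ t ∉ E, ‖Φ t - (a : ℂ_[p])‖ < ‖(M : ℂ_[p])‖ → Good K m (X t) t (fun _ _ => ⊤) ∧
        (2 ^ (D + 1) * ‖Φ t - (a : ℂ_[p])‖ < ‖(M : ℂ_[p])‖ →
          Good K m (X t) t (fun i j => (c i * c j : ℕ))) := by
  classical
  obtain ⟨e, C, H, k, κ, h1, h2⟩ := hX
  let W : Set ℂ := (⋃ J : Finset (Fin n), ⋃ u ∈ (H J).support, ⋃ i ∈ ((H J).coeff u).support,
      {((((H J).coeff u).coeff i : K) : ℂ)}) ∪
    ((⋃ J : Finset (Fin n), {(κ J : ℂ)}) ∪ ⋃ i : Fin n, ⋃ γ ∈ C i, {(γ : ℂ)})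
  have hWf : W.Finite := by
    refine Set.Finite.union (Set.finite_iUnion fun J => Set.Finite.biUnion
      (Finset.finite_toSet _) fun u _ => Set.Finite.biUnion (Finset.finite_toSet _) fun i _ =>
      Set.finite_singleton _) (Set.Finite.union (Set.finite_iUnion fun J =>
      Set.finite_singleton _) (Set.finite_iUnion fun i => Set.Finite.biUnion
      (Finset.finite_toSet _) fun γ _ => Set.finite_singleton _))
  have hWK : ∀ z ∈ W, z ∈ K := by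
    rintro z (hz | hz | hz)
    · simp only [Set.mem_iUnion, Set.mem_singleton_iff] at hz
      obtain ⟨J, u, -, i, -, rfl⟩ := hz
      exact SetLike.coe_mem _
    · simp only [Set.mem_iUnion, Set.mem_singleton_iff] at hz
      obtain ⟨J, rfl⟩ := hz
      exact SetLike.coe_mem _
    · simp only [Set.mem_iUnion, Set.mem_singleton_iff] at hz
      obtain ⟨i, γ, -, rfl⟩ := hz
      exact SetLike.coe_mem _
  obtain ⟨M1, hM1, hM⟩ := bound_unif W hWf fun z hz => hK z (hWK z hz)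
  let D : ℕ := ∑ J : Finset (Fin n), ∑ j : J, ∑ γ ∈ C j, k J j γ
  have hD : ∀ J : Finset (Fin n), ∑ j : J, ∑ γ ∈ C j, k J j γ ≤ D := fun J =>
    Finset.single_le_sum (f := fun J : Finset (Fin n) => ∑ j : J, ∑ γ ∈ C j, k J j γ)
      (fun _ _ => Nat.zero_le _) (Finset.mem_univ J)
  refine ⟨M1 ^ (D + 2), D, pow_pos hM1 _, fun p hpf Φ t ht hta => ?_⟩
  set μ : ℝ := ‖(M1 : ℂ_[p])‖ with hμ
  have hμ0 : 0 < μ := norm_pos_iff.2 (by exact_mod_cast hM1.ne')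
  have hμ1 : μ ≤ 1 := nnat M1
  have hMμ : ‖((M1 ^ (D + 2) : ℕ) : ℂ_[p])‖ = μ ^ (D + 2) := by
    push_cast
    rw [norm_pow]
  rw [hMμ] at hta ⊢
  have hta' : ‖Φ t - (a : ℂ_[p])‖ = ‖Φ (t - a)‖ := by rw [map_sub, map_ratCast]
  have htne : t ≠ a := by
    rintro rfl
    exact ht haE
  have hμD : 0 < μ ^ (D + 2) := by positivity
  have hmain : ∀ ρ : ℝ, 0 < ρ → ρ < 1 → ‖Φ (t - a)‖ < ρ ^ (D + 1) * μ ^ (D + 2) →
      ∃ R : Fin n → Finset ℂ_[p], (∀ i, ∀ c ∈ R i, 1 ≤ ρ * ‖c‖) ∧ (∀ i, (R i).card ≤ (C i).card) ∧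
        ∀ K' : Subfield ℂ, Countable K' → K ≤ K' → t ∈ K' →
          ZPin K' ⊥ m (X t) (levelSet R ρ) := by
    intro ρ hρ0 hρ1 hs
    refine core (fun i => (h1 i).1) (fun J hJ => (h2 J hJ).2.1) (fun J hJ => (h2 J hJ).2.2.1) hD Φ
      hμ0 hμ1 ?_ ?_ ?_ htne (fun x hx J hJ => (h2 J hJ).2.2.2 t ht x hx) hρ0 hρ1 hs
    · intro J hJ
      refine (hM p Φ _ (Or.inr (Or.inl (Set.mem_iUnion.2 ⟨J, rfl⟩)))).2 ?_
      have := (h2 J hJ).1
      exact_mod_cast this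
    · intro j γ hγ
      refine (hM p Φ _ (Or.inr (Or.inr (Set.mem_iUnion.2 ⟨j, Set.mem_iUnion₂.2
        ⟨γ, hγ, rfl⟩⟩)))).2 ?_
      have h3 : γ ≠ 0 := by
        rintro rfl
        exact (h1 j).2.1 hγ
      exact_mod_cast h3
    · intro J u i
      by_cases hz : ((H J).coeff u).coeff i = 0
      · rw [hz, ZeroMemClass.coe_zero, map_zero, norm_zero]
        positivity
      · have hu : u ∈ (H J).support := by
          rw [mem_support_iff]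
          rintro h0
          exact hz (by rw [h0, Polynomial.coeff_zero])
        have h3 := (hM p Φ (((((H J).coeff u).coeff i : K)) : ℂ) (Or.inl (Set.mem_iUnion.2 ⟨J,
          Set.mem_iUnion₂.2 ⟨u, hu, Set.mem_iUnion₂.2 ⟨i, Polynomial.mem_support_iff.2 hz,
            rfl⟩⟩⟩))).1
        rw [← hμ] at h3
        rw [← one_div, le_div_iff₀ hμ0, mul_comm]
        exact h3
  rw [hta'] at hta ⊢
  refine ⟨?_, fun h3 => ?_⟩
  · obtain ⟨ρ, hρ0, hρ1, hr⟩ := exists_rho_pow (r := ‖Φ (t - a)‖ / μ ^ (D + 2)) (by positivity)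
      ((div_lt_one hμD).2 hta) D
    obtain ⟨R, hR, -, hZ⟩ := hmain ρ hρ0 hρ1 ((div_lt_iff₀ hμD).1 hr)
    exact ⟨levelSet R ρ, fun i j => ⟨levelSet_finite hρ1 hR i j, le_top⟩, hZ⟩
  · obtain ⟨ρ, hρ0, hρ1, hr⟩ := exists_rho_pow (r := 2 ^ (D + 1) * ‖Φ (t - a)‖ / μ ^ (D + 2))
      (by positivity) ((div_lt_one hμD).2 h3) D
    have hρ2 : ρ / 2 < 1 / 2 := by linarith
    obtain ⟨R, hR, hcard, hZ⟩ := hmain (ρ / 2) (by linarith) (by linarith) (by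
      rw [div_pow, div_mul_eq_mul_div, lt_div_iff₀ (by positivity), mul_comm ‖Φ (t - a)‖]
      exact (div_lt_iff₀ hμD).1 hr)
    refine ⟨levelSet R (ρ / 2), fun i j => ⟨levelSet_finite (by linarith) hR i j,
      (encard_levelSet hρ2 hR i j).trans ?_⟩, hZ⟩
    exact Nat.cast_le.2 (Nat.mul_le_mul ((hcard i).trans (h1 i).2.2) ((hcard j).trans (h1 j).2.2))

/-- The same for finitely many starshaped members. -/
theorem loc (K : Subfield ℂ) (hK : ∀ z ∈ K, IsAlgebraic ℚ z) {E : Set ℂ} {n m : ℕ}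
    {c : Fin n → ℕ} {X : ℂ → Set (Fin n → ℂ)} {T : Finset ℚ} (hTE : ∀ a ∈ T, (a : ℂ) ∈ E)
    (hX : ∀ a ∈ T, StarAt K E m c X a) :
    ∃ M D : ℕ, 0 < M ∧ ∀ a ∈ T, ∀ (p : ℕ) [Fact p.Prime] (Φ : ℂ →+* ℂ_[p]),
      ∀ t ∉ E, ‖Φ t - (a : ℂ_[p])‖ < ‖(M : ℂ_[p])‖ → Good K m (X t) t (fun _ _ => ⊤) ∧
        (2 ^ (D + 1) * ‖Φ t - (a : ℂ_[p])‖ < ‖(M : ℂ_[p])‖ →
          Good K m (X t) t (fun i j => (c i * c j : ℕ))) := by
  classical
  have h1 : ∀ a : ℚ, ∃ M D : ℕ, 0 < M ∧ (a ∈ T → ∀ (p : ℕ) [Fact p.Prime] (Φ : ℂ →+* ℂ_[p]),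
      ∀ t ∉ E, ‖Φ t - (a : ℂ_[p])‖ < ‖(M : ℂ_[p])‖ → Good K m (X t) t (fun _ _ => ⊤) ∧
        (2 ^ (D + 1) * ‖Φ t - (a : ℂ_[p])‖ < ‖(M : ℂ_[p])‖ →
          Good K m (X t) t (fun i j => (c i * c j : ℕ)))) := by
    intro a
    by_cases ha : a ∈ T
    · obtain ⟨M, D, hM, h⟩ := loc1 K hK (hTE a ha) (hX a ha)
      exact ⟨M, D, hM, fun _ => h⟩
    · exact ⟨1, 0, one_pos, fun h => absurd h ha⟩
  choose M D hM0 hM using h1
  refine ⟨∏ a ∈ T, M a, ∑ a ∈ T, D a, Finset.prod_pos fun a _ => hM0 a,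
    fun a ha p hpf Φ t ht hta => ?_⟩
  have h3 : ‖((∏ a ∈ T, M a : ℕ) : ℂ_[p])‖ ≤ ‖(M a : ℂ_[p])‖ := by
    rw [← Finset.mul_prod_erase _ _ ha]
    push_cast
    rw [norm_mul]
    have h4 : ‖∏ z ∈ T.erase a, ((M z : ℕ) : ℂ_[p])‖ ≤ 1 := by
      have := nnat (C := ℂ_[p]) (∏ z ∈ T.erase a, M z)
      push_cast at this
      exact this
    exact mul_le_of_le_one_right (norm_nonneg _) h4
  have h4 : D a ≤ ∑ a ∈ T, D a := Finset.single_le_sum (fun _ _ => Nat.zero_le _) ha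
  obtain ⟨h5, h6⟩ := hM a ha p Φ t ht (hta.trans_le h3)
  refine ⟨h5, fun h7 => h6 ?_⟩
  refine lt_of_le_of_lt ?_ (h7.trans_le h3)
  gcongr
  exact one_le_two

end Pool.Agent.NH30.KU
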