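import Pool.Agent.NH30.KU.Stm

/-!
# Task KU-TRANS: translates by rational functions with poles are starshaped
-/

set_option autoImplicit false

namespace Pool.Agent.NH30.KU

open MvPolynomial

namespace TransAux

variable {K : Subfield ℂ}

/-- The substitution `s ↦ s + a`. -/
noncomputable def sh (K : Subfield ℂ) (A : K) : Polynomial K →+* Polynomial K :=
  Polynomial.compRingHom (Polynomial.X + Polynomial.C A)

theorem sh_apply (A : K) (f : Polynomial K) :
    sh K A f = f.comp (Polynomial.X + Polynomial.C A) := rfl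

theorem evalAt_sh (a : ℚ) (t : ℂ) (f : Polynomial K) :
    evalAt K (t - (a : ℂ)) (sh K ((a : ℚ) : K) f) = evalAt K t f := by
  rw [sh_apply]
  show Polynomial.aeval (t - (a : ℂ)) (f.comp (Polynomial.X + Polynomial.C ((a : ℚ) : K)))
    = Polynomial.aeval t f
  rw [Polynomial.aeval_comp]
  congr 1
  simp

theorem eval_zero_sh (A : K) (f : Polynomial K) :
    (sh K A f).eval 0 = f.eval A := by
  rw [sh_apply, Polynomial.eval_comp]
  simp

theorem sh_ne_zero (A : K) {f : Polynomial K} (hf : f ≠ 0) : sh K A f ≠ 0 := by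
  intro h
  apply hf
  rw [sh_apply] at h
  have h2 : (f.comp (Polynomial.X + Polynomial.C A)).comp (Polynomial.X - Polynomial.C A) = f := by
    rw [Polynomial.comp_assoc]
    simp
  rw [← h2, h, Polynomial.zero_comp]

theorem exists_factor (A : K) {f : Polynomial K} (hf : f ≠ 0) (h0 : f.eval A = 0) :
    ∃ (e : ℕ) (g : Polynomial K), 0 < e ∧ g.eval 0 ≠ 0 ∧ sh K A f = Polynomial.X ^ e * g := by
  obtain ⟨g, hg, hnd⟩ := Polynomial.exists_eq_pow_rootMultiplicity_mul_and_not_dvd
    (sh K A f) (sh_ne_zero A hf) 0
  rw [Polynomial.C_0, sub_zero] at hg hnd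
  have hg0 : g.eval 0 ≠ 0 := by
    intro h
    apply hnd
    have := Polynomial.dvd_iff_isRoot.2 h
    rwa [Polynomial.C_0, sub_zero] at this
  refine ⟨_, g, ?_, hg0, hg⟩
  rcases Nat.eq_zero_or_pos ((sh K A f).rootMultiplicity 0) with h | h
  · exfalso
    rw [h, pow_zero, one_mul] at hg
    apply hg0
    rw [← hg, eval_zero_sh, h0]
  · exact h

end TransAux

open TransAux

theorem s_trans : S_TRANS := by
  classical
  intro K n m E G d hd Y hY P Q hQ0 hQE a hlead hP hQ
  have hfac : ∀ i, ∃ (e : ℕ) (g : Polynomial K), 0 < e ∧ g.eval 0 ≠ 0 ∧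
      sh K ((a : ℚ) : K) (Q i) = Polynomial.X ^ e * g :=
    fun i => exists_factor _ (hQ0 i) (hQ i)
  choose e Q' he hQ'0 hQ' using hfac
  set A : K := ((a : ℚ) : K) with hA
  set γ : Fin n → K := fun i => (P i).eval A / (Q' i).eval 0 with hγ
  have hγ0 : ∀ i, γ i ≠ 0 := fun i => div_ne_zero (hP i) (hQ'0 i)
  have hγm : ∀ i, (Q' i).eval 0 * γ i = (P i).eval A := fun i => by
    simp only [hγ]
    exact mul_div_cancel₀ _ (hQ'0 i)
  set H : ∀ J : Finset (Fin n), MvPolynomial J (Polynomial K) := fun J =>
    ∑ u ∈ (G J).support,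
      C (sh K A ((G J).coeff u) *
        ∏ j : J, (Polynomial.X ^ e j * Q' j) ^ (d J j - u j)) *
      ∏ j : J, (C (Q' j) * X j - C (sh K A (P j))) ^ (u j) with hH
  refine ⟨e, fun i => {γ i}, H, fun J j _ => d J j,
    fun J => ((G J).coeff (d J)).eval A * ∏ j : J, ((Q' j).eval 0) ^ (d J j), ?_, ?_⟩
  · intro i
    refine ⟨he i, ?_, ?_⟩
    · simp only [Finset.mem_singleton]
      exact fun h => hγ0 i h.symm
    · simp
  intro J hJ
  refine ⟨?_, ?_, ?_, ?_⟩
  · exact mul_ne_zero (hlead J hJ) (Finset.prod_ne_zero_iff.2 fun j _ => pow_ne_zero _ (hQ'0 j))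
  · intro u hu j
    rw [Finset.sum_singleton]
    refine le_trans (monomial_le_degreeOf j hu) ?_
    simp only [hH]
    refine le_trans (degreeOf_sum_le _ _ _) ?_
    refine Finset.sup_le ?_
    intro v hv
    refine le_trans (degreeOf_C_mul_le _ _ _) ?_
    refine le_trans (degreeOf_prod_le _ _ _) ?_
    refine le_trans ?_ (hd J hJ v hv j)
    calc ∑ i : J, degreeOf j ((C (Q' i) * X i - C (sh K A (P i))) ^ (v i))
        ≤ ∑ i : J, (if i = j then v j else 0) := by
          refine Finset.sum_le_sum ?_
          intro i _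
          refine le_trans (degreeOf_pow_le _ _ _) ?_
          have h1 : degreeOf j (C (Q' i) * X i - C (sh K A (P i)) :
              MvPolynomial J (Polynomial K)) ≤ if i = j then 1 else 0 := by
            refine le_trans (degreeOf_sub_le _ _ _) ?_
            rw [degreeOf_C]
            refine max_le ?_ (Nat.zero_le _)
            refine le_trans (degreeOf_C_mul_le _ _ _) ?_
            rw [degreeOf_X]
            by_cases h : j = i
            · rw [if_pos h, if_pos h.symm]
            · rw [if_neg h, if_neg (Ne.symm h)]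
          by_cases h : i = j
          · rw [if_pos h]
            rw [if_pos h] at h1
            subst h
            calc _ ≤ v i * 1 := Nat.mul_le_mul_left _ h1
              _ = v i := mul_one _
          · rw [if_neg h]
            rw [if_neg h] at h1
            calc _ ≤ v i * 0 := Nat.mul_le_mul_left _ h1
              _ = 0 := mul_zero _
      _ = v j := by
          rw [Finset.sum_ite_eq' Finset.univ j (fun _ => v j)]
          simp
  · simp only [hH, map_sum, map_mul, map_prod, map_pow, map_sub, map_C, map_X, Finset.prod_singleton]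
    rw [Finset.sum_eq_single (d J)]
    · simp only [Nat.sub_self, pow_zero, Finset.prod_const_one, mul_one,
        Polynomial.coe_evalRingHom, eval_zero_sh]
      rw [mul_assoc, ← Finset.prod_mul_distrib]
      congr 1
      refine Finset.prod_congr rfl ?_
      intro j _
      rw [← mul_pow]
      congr 1
      rw [← hγm j, map_mul]
      ring
    · intro u hu hne
      have hex : ∃ j, u j < d J j := by
        by_contra hc
        push Not at hc
        apply hne
        ext j
        exact le_antisymm (hd J hJ u hu j) (hc j)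
      obtain ⟨j, hj⟩ := hex
      have hz : ∏ j : J, (C ((Polynomial.evalRingHom (0:K)) Polynomial.X) ^ e j *
          C ((Polynomial.evalRingHom (0:K)) (Q' j)) : MvPolynomial J K) ^ (d J j - u j) = 0 := by
        refine Finset.prod_eq_zero (Finset.mem_univ j) ?_
        have h1 : (Polynomial.evalRingHom (0:K)) Polynomial.X = 0 := by simp
        rw [h1, map_zero, zero_pow (he j).ne', zero_mul, zero_pow (by omega)]
      rw [hz]
      simp
    · intro hns
      exfalso
      apply hlead J hJ
      rw [notMem_support_iff.1 hns]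
      simp
  · intro t ht x hx
    have hy := hY t ht _ hx J hJ
    rw [eval₂_eq'] at hy
    simp only [hH]
    rw [eval₂_sum]
    set s : ℂ := t - (a : ℂ) with hs
    have hb : ∀ j, s ^ e j * evalAt K s (Q' j) = evalAt K t (Q j) := by
      intro j
      rw [← evalAt_sh a t (Q j), hQ' j, map_mul, map_pow]
      congr 2
      simp [evalAt, hs]
    have hXs : evalAt K s Polynomial.X = s := by
      simp [evalAt]
    have hterm : ∀ u ∈ (G J).support,
        eval₂ (evalAt K s) (fun j : J => s ^ e j * x j)
          (C (sh K A ((G J).coeff u) *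
            ∏ j : J, (Polynomial.X ^ e j * Q' j) ^ (d J j - u j)) *
          ∏ j : J, (C (Q' j) * X j - C (sh K A (P j))) ^ (u j)) =
        (∏ j : J, evalAt K t (Q j) ^ (d J j)) * (evalAt K t ((G J).coeff u) *
          ∏ j : J, (x j - evalAt K t (P j) / evalAt K t (Q j)) ^ (u j)) := by
      intro u hu
      rw [eval₂_mul, eval₂_C, map_mul, map_prod, hA, evalAt_sh, eval₂_prod]
      have h1 : ∏ j : J, evalAt K s ((Polynomial.X ^ e j * Q' j) ^ (d J j - u j)) =
          ∏ j : J, evalAt K t (Q j) ^ (d J j - u j) := by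
        refine Finset.prod_congr rfl ?_
        intro j _
        rw [map_pow, map_mul, map_pow, hXs, hb]
      have h2 : ∏ j : J, eval₂ (evalAt K s) (fun j : J => s ^ e j * x j)
          ((C (Q' j) * X j - C (sh K ((a:ℚ) : K) (P j))) ^ (u j)) =
          ∏ j : J, (evalAt K t (Q j) * (x j - evalAt K t (P j) / evalAt K t (Q j))) ^ (u j) := by
        refine Finset.prod_congr rfl ?_
        intro j _
        rw [eval₂_pow]
        congr 1
        rw [eval₂_sub, eval₂_mul, eval₂_C, eval₂_C, eval₂_X, evalAt_sh]
        have hne := hQE t ht j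
        rw [mul_sub, mul_div_cancel₀ _ hne, ← hb j]
        ring
      rw [h1, h2]
      have h3 : ∏ j : J, (evalAt K t (Q j) * (x j - evalAt K t (P j) / evalAt K t (Q j))) ^ (u j)
          = (∏ j : J, evalAt K t (Q j) ^ (u j)) *
            ∏ j : J, (x j - evalAt K t (P j) / evalAt K t (Q j)) ^ (u j) := by
        rw [← Finset.prod_mul_distrib]
        exact Finset.prod_congr rfl fun j _ => mul_pow _ _ _
      have h4 : ∏ j : J, evalAt K t (Q j) ^ (d J j) =
          (∏ j : J, evalAt K t (Q j) ^ (d J j - u j)) * ∏ j : J, evalAt K t (Q j) ^ (u j) := by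
        rw [← Finset.prod_mul_distrib]
        refine Finset.prod_congr rfl fun j _ => ?_
        rw [← pow_add, Nat.sub_add_cancel (hd J hJ u hu j)]
      rw [h3, h4]
      ring
    rw [Finset.sum_congr rfl hterm, ← Finset.mul_sum]
    rw [hy, mul_zero]

end Pool.Agent.NH30.KU
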