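import Pool.Agent.NH30.KU.Arith
import Pool.Agent.NH30.KU.Fin1
import Pool.Agent.NH30.KU.Trans
import Pool.Agent.NH30.KU.Fin3
import Pool.Agent.Y152.RP.Main

/-!
# Members of bounded degree of starshaped families (helper30): the theorem
-/

set_option autoImplicit false

open Function MvPolynomial
open Pool.Agent.Y226 (nnat)
open Pool.Agent.Y152.BD (Nv)
open Pool.Agent.Y152.RP (Smo Rad)

namespace Pool.Agent.NH30.KU

/-- The conjecture holds for almost all members of the family `X t`, in the sense explained in the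
file of the result. -/
def AlmostAllMembers (K : Subfield ℂ) (T : Finset ℚ) {n : ℕ} (m : ℕ) (b : Fin n → Fin n → ℕ∞)
    (X : ℂ → Set (Fin n → ℂ)) : Prop :=
  (T.Nonempty → ∀ t : ℂ, Transcendental ℚ t → Good K m (X t) t b) ∧
  (∃ M : ℕ, ∀ (t : ℂ) (G : Polynomial ℤ), Irreducible G → Polynomial.aeval t G = 0 →
    (∃ a ∈ T, ((M : ℤ) ^ G.natDegree < |Nv G a|)) → Good K m (X t) t (fun _ _ => ⊤)) ∧
  {t : ℂ | IsAlgebraic ℚ t ∧ ((minpoly ℚ t).natDegree < T.card ∨
    (IsIntegral ℤ t ∧ (minpoly ℚ t).natDegree ≤ T.card)) ∧ ¬ Good K m (X t) t b}.Finite ∧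
  (3 ≤ T.card → ∀ F : IntermediateField ℚ ℂ, FiniteDimensional ℚ F →
    {t : ℂ | t ∈ F ∧ ¬ Good K m (X t) t b}.Finite) ∧
  (∀ α : Fin 3 → ℚ, (∀ l, α l ∈ T ∧ α l ≠ 0) → (∀ l l', l ≠ l' → |α l| ≠ |α l'|) →
    {t : ℂ | (∃ N : ℕ, 0 < N ∧ ∃ q : ℚ, t ^ N = (q : ℂ)) ∧
      ¬ Good K m (X t) t (fun _ _ => ⊤)}.Finite) ∧
  ((∃ a ∈ T, a ≠ 0 ∧ |a| ≠ 1) →
    {t : ℂ | (∃ N : ℕ, 0 < N ∧ t ^ N = 1) ∧ ¬ Good K m (X t) t (fun _ _ => ⊤)}.Finite)

/-- an irreducible integral polynomial with a given root -/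
theorem exists_irr {t : ℂ} (ht : IsAlgebraic ℚ t) :
    ∃ G : Polynomial ℤ, Irreducible G ∧ Polynomial.aeval t G = 0 := by
  have ht' : IsAlgebraic ℤ t := (IsFractionRing.isAlgebraic_iff ℤ ℚ ℂ).2 ht
  obtain ⟨H, h0, h1⟩ := ht'
  obtain ⟨G, h2, -, h3⟩ := Pool.Agent.Y239.RP.SE.exists_factor t H h0 h1
  exact ⟨G, h2, h3⟩

theorem natDegree_eq {t : ℂ} {G : Polynomial ℤ} (hG : Irreducible G)
    (ht : Polynomial.aeval t G = 0) : G.natDegree = (minpoly ℚ t).natDegree := by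
  obtain ⟨c, hc, h⟩ := aeval_eq_of_minpoly hG ht (natDegree_pos hG ht)
  have h1 := congrArg Polynomial.natDegree h
  rw [Polynomial.natDegree_C_mul hc, Polynomial.natDegree_map_eq_of_injective
    (RingHom.injective_int _)] at h1
  exact h1

theorem smooth_of_dvd {z w : ℤ} (hw : w ≠ 0) (h : z ∣ w) {D : ℕ} (hD : w.natAbs ≤ D) :
    Smo D z := by
  intro p hp hpD hpz
  have h1 : p ∣ w.natAbs := Int.natCast_dvd.1 (hpz.trans h)
  have h2 := Nat.le_of_dvd (Int.natAbs_pos.2 hw) h1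
  omega

theorem main (K : Subfield ℂ) (hK : ∀ z ∈ K, IsAlgebraic ℚ z) {E : Set ℂ} (hE : E.Finite)
    (hEalg : ∀ t ∈ E, IsAlgebraic ℚ t) {n m : ℕ} {c : Fin n → ℕ} {X : ℂ → Set (Fin n → ℂ)}
    {T : Finset ℚ} (hTE : ∀ a ∈ T, (a : ℂ) ∈ E) (hX : ∀ a ∈ T, StarAt K E m c X a) :
    AlmostAllMembers K T m (fun i j => (c i * c j : ℕ)) X := by
  classical
  obtain ⟨M, D, hM, hloc⟩ := loc K hK hTE hX
  set b : Fin n → Fin n → ℕ∞ := fun i j => (c i * c j : ℕ) with hb
  -- values of the minimal polynomials of the exceptions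
  have hval0 : ∀ (t : ℂ) (G : Polynomial ℤ), t ∉ E → Irreducible G →
      Polynomial.aeval t G = 0 → ¬ Good K m (X t) t (fun _ _ => ⊤) → ∀ a ∈ T,
      Nv G a ∣ ((M * a.den ^ 2 : ℕ) : ℤ) ^ G.natDegree := by
    intro t G htE hG ht hbad a ha
    have h1 := value_dvd hG ht a hM 0 (fun p _ Φ => by
      rw [pow_zero, one_mul]
      by_contra hcon
      push Not at hcon
      exact hbad (hloc a ha p Φ t htE hcon).1)
    simpa using h1
  have hvalD : ∀ (t : ℂ) (G : Polynomial ℤ), t ∉ E → Irreducible G →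
      Polynomial.aeval t G = 0 → ¬ Good K m (X t) t b → ∀ a ∈ T,
      Nv G a ∣ ((M * a.den ^ 2 : ℕ) : ℤ) ^ G.natDegree *
        ((2 ^ ((D + 1) * G.natDegree)).factorial : ℤ) := by
    intro t G htE hG ht hbad a ha
    refine value_dvd hG ht a hM (D + 1) (fun p _ Φ => ?_)
    by_contra hcon
    push Not at hcon
    have h2 : (1 : ℝ) ≤ 2 ^ (D + 1) := one_le_pow₀ one_le_two
    have h3 : ‖Φ t - (a : ℂ_[p])‖ < ‖(M : ℂ_[p])‖ := by
      refine lt_of_le_of_lt ?_ hcon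
      exact le_mul_of_one_le_left (norm_nonneg _) h2
    exact hbad ((hloc a ha p Φ t htE h3).2 hcon)
  have hden : ∀ a : ℚ, 0 < M * a.den ^ 2 := fun a => Nat.mul_pos hM (pow_pos a.den_pos 2)
  -- a common bound
  have hbound : ∀ d : ℕ, ∃ B : ℕ, ∀ a ∈ T, ∀ δ ≤ d,
      (M * a.den ^ 2) ^ δ * (2 ^ ((D + 1) * δ)).factorial ≤ B := by
    intro d
    refine ⟨∑ a ∈ T, (M * a.den ^ 2) ^ d * (2 ^ ((D + 1) * d)).factorial, fun a ha δ hδ => ?_⟩
    refine le_trans ?_ (Finset.single_le_sum (f := fun a : ℚ => (M * a.den ^ 2) ^ d *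
      (2 ^ ((D + 1) * d)).factorial) (fun _ _ => Nat.zero_le _) ha)
    refine Nat.mul_le_mul (Nat.pow_le_pow_right (hden a) hδ) (Nat.factorial_le ?_)
    exact Nat.pow_le_pow_right (by norm_num) (Nat.mul_le_mul_left _ hδ)
  have hne : ∀ (a : ℚ) (δ : ℕ), ((M * a.den ^ 2 : ℕ) : ℤ) ^ δ *
      ((2 ^ ((D + 1) * δ)).factorial : ℤ) ≠ 0 := by
    intro a δ
    have h1 : ((M * a.den ^ 2 : ℕ) : ℤ) ≠ 0 := by exact_mod_cast (hden a).ne'
    have h2 : ((2 ^ ((D + 1) * δ)).factorial : ℤ) ≠ 0 := by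
      exact_mod_cast Nat.factorial_ne_zero _
    exact mul_ne_zero (pow_ne_zero _ h1) h2
  have habs : ∀ (a : ℚ) (δ : ℕ), (((M * a.den ^ 2 : ℕ) : ℤ) ^ δ *
      ((2 ^ ((D + 1) * δ)).factorial : ℤ)).natAbs =
      (M * a.den ^ 2) ^ δ * (2 ^ ((D + 1) * δ)).factorial := by
    intro a δ
    rw [Int.natAbs_mul, Int.natAbs_pow, Int.natAbs_natCast, Int.natAbs_natCast]
  refine ⟨?_, ?_, ?_, ?_, ?_, ?_⟩
  · -- transcendental parameters
    rintro ⟨a, ha⟩ t ht
    have htE : t ∉ E := fun h => ht (hEalg t h)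
    have hpf : Fact (Nat.Prime 2) := ⟨Nat.prime_two⟩
    have h2lt : ‖((2 : ℕ) : ℂ_[2])‖ < 1 := by
      have h1 := Pool.Agent.NH30.KS.norm_rat (p := 2) (2 : ℚ)
      have h2 : ‖((2 : ℕ) : ℚ_[2])‖ < 1 := Padic.norm_p_lt_one
      push_cast at h1 h2 ⊢
      rw [h1]
      exact h2
    have hM0 : 0 < ‖(M : ℂ_[2])‖ := norm_pos_iff.2 (by exact_mod_cast hM.ne')
    obtain ⟨k, hk⟩ := exists_pow_lt_of_lt_one (y := ‖((2 : ℕ) : ℂ_[2])‖)
      (show 0 < ‖(M : ℂ_[2])‖ / 2 ^ (D + 1) by positivity) h2lt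
    obtain ⟨Φ, hΦ⟩ := exists_tr_place 2 ht a k
    have h3 : 2 ^ (D + 1) * ‖Φ t - (a : ℂ_[2])‖ < ‖(M : ℂ_[2])‖ := by
      rw [mul_comm, ← lt_div_iff₀ (by positivity)]
      exact hΦ.trans_lt hk
    have h4 : ‖Φ t - (a : ℂ_[2])‖ < ‖(M : ℂ_[2])‖ := by
      refine lt_of_le_of_lt ?_ h3
      exact le_mul_of_one_le_left (norm_nonneg _) (one_le_pow₀ one_le_two)
    exact (hloc a ha 2 Φ t htE h4).2 h3
  · -- the criterion
    let W : Set ℤ := ⋃ t ∈ E, ⋃ a ∈ T, {z : ℤ | ∃ G : Polynomial ℤ, Irreducible G ∧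
      Polynomial.aeval t G = 0 ∧ z = Nv G a}
    have hWb : ∃ B : ℕ, ∀ t ∈ E, ∀ a ∈ T, ∀ G : Polynomial ℤ, Irreducible G →
        Polynomial.aeval t G = 0 → (Nv G a).natAbs ≤ B := by
      have h1 : ∀ t ∈ E, ∃ B : ℕ, ∀ a ∈ T, ∀ G : Polynomial ℤ, Irreducible G →
          Polynomial.aeval t G = 0 → (Nv G a).natAbs ≤ B := by
        intro t ht
        obtain ⟨G0, hG0, hG0t⟩ := exists_irr (hEalg t ht)
        refine ⟨∑ a ∈ T, (Nv G0 a).natAbs, fun a ha G hG hGt => ?_⟩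
        have h2 : G = G0 ∨ G = -G0 := by
          obtain ⟨c, hc, h⟩ := aeval_eq_of_minpoly hG hGt (natDegree_pos hG hGt)
          obtain ⟨c0, hc0, h0⟩ := aeval_eq_of_minpoly hG0 hG0t (natDegree_pos hG0 hG0t)
          have hp : G.IsPrimitive := hG.isPrimitive (natDegree_pos hG hGt).ne'
          have hp0 : G0.IsPrimitive := hG0.isPrimitive (natDegree_pos hG0 hG0t).ne'
          have h3 : G ∣ G0 := by
            rw [Polynomial.IsPrimitive.Int.dvd_iff_map_cast_dvd_map_cast G G0 hp, h, h0]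
            refine mul_dvd_mul_right ?_ _
            refine ⟨Polynomial.C (c⁻¹ * c0), ?_⟩
            rw [← Polynomial.C_mul, ← mul_assoc, mul_inv_cancel₀ hc, one_mul]
          have h4 := (hG.dvd_irreducible_iff_associated hG0).1 h3
          obtain ⟨u, hu⟩ := h4
          obtain ⟨r, hr, hru⟩ := Polynomial.isUnit_iff.1 u.isUnit
          rcases Int.isUnit_iff.1 hr with rfl | rfl
          · left
            rw [← hu, ← hru]
            simp
          · right
            rw [← hu, ← hru]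
            simp
        have h5 : (Nv G a).natAbs = (Nv G0 a).natAbs := by
          rcases h2 with rfl | rfl
          · rfl
          · have : Nv (-G0) a = -Nv G0 a := by
              unfold Pool.Agent.Y152.BD.Nv
              rw [Polynomial.natDegree_neg, ← Finset.sum_neg_distrib]
              refine Finset.sum_congr rfl fun i _ => ?_
              rw [Polynomial.coeff_neg]
              ring
            rw [this, Int.natAbs_neg]
        rw [h5]
        exact Finset.single_le_sum (f := fun a => (Nv G0 a).natAbs) (fun _ _ => Nat.zero_le _) ha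
      have h2 : ∀ t : ℂ, ∃ B : ℕ, t ∈ E → ∀ a ∈ T, ∀ G : Polynomial ℤ, Irreducible G →
          Polynomial.aeval t G = 0 → (Nv G a).natAbs ≤ B := by
        intro t
        by_cases ht : t ∈ E
        · obtain ⟨B, hB⟩ := h1 t ht
          exact ⟨B, fun _ => hB⟩
        · exact ⟨0, fun h => absurd h ht⟩
      choose B hB using h2
      refine ⟨∑ t ∈ hE.toFinset, B t, fun t ht a ha G hG hGt => (hB t ht a ha G hG hGt).trans ?_⟩
      exact Finset.single_le_sum (fun _ _ => Nat.zero_le _) (hE.mem_toFinset.2 ht)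
    obtain ⟨B, hB⟩ := hWb
    refine ⟨B + 1 + ∑ a ∈ T, M * a.den ^ 2, fun t G hG hGt hbig => ?_⟩
    obtain ⟨a, ha, hlt⟩ := hbig
    have hd := natDegree_pos hG hGt
    set M' : ℕ := B + 1 + ∑ a ∈ T, M * a.den ^ 2 with hM'
    have hMa : M * a.den ^ 2 ≤ M' := by
      have := Finset.single_le_sum (f := fun a : ℚ => M * a.den ^ 2) (fun _ _ => Nat.zero_le _) ha
      omega
    have habs' : |Nv G a| = ((Nv G a).natAbs : ℤ) := Int.abs_eq_natAbs _
    rw [habs'] at hlt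
    have hlt' : M' ^ G.natDegree < (Nv G a).natAbs := by exact_mod_cast hlt
    by_cases htE : t ∈ E
    · exfalso
      have h1 := hB t htE a ha G hG hGt
      have h2 : M' ≤ M' ^ G.natDegree := Nat.le_self_pow hd.ne' _
      omega
    · by_contra hbad
      have h1 := hval0 t G htE hG hGt hbad a ha
      have h2 : (((M * a.den ^ 2 : ℕ) : ℤ) ^ G.natDegree).natAbs = (M * a.den ^ 2) ^ G.natDegree := by
        rw [Int.natAbs_pow, Int.natAbs_natCast]
      have h3 : (Nv G a).natAbs ≤ (M * a.den ^ 2) ^ G.natDegree := by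
        rw [← h2]
        refine Nat.le_of_dvd ?_ (Int.natAbs_dvd_natAbs.2 h1)
        rw [h2]
        exact pow_pos (hden a) _
      have h4 : (M * a.den ^ 2) ^ G.natDegree ≤ M' ^ G.natDegree := Nat.pow_le_pow_left hMa _
      omega
  · -- bounded degree
    obtain ⟨B, hB⟩ := hbound T.card
    refine ((s_fin1 T B).union hE).subset ?_
    rintro t ⟨htalg, hdeg, hbad⟩
    by_cases htE : t ∈ E
    · exact Or.inr htE
    left
    have hkey : ∀ G : Polynomial ℤ, Irreducible G → Polynomial.aeval t G = 0 →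
        G.natDegree ≤ T.card → ∀ a ∈ T, |Nv G a| ≤ (B : ℤ) := by
      intro G hG hGt hd a ha
      have h1 := hvalD t G htE hG hGt hbad a ha
      have h2 := Nat.le_of_dvd (Int.natAbs_pos.2 (hne a _)) (Int.natAbs_dvd_natAbs.2 h1)
      rw [habs] at h2
      rw [Int.abs_eq_natAbs]
      exact_mod_cast h2.trans (hB a ha _ hd)
    rcases hdeg with hdeg | ⟨hint, hdeg⟩
    · obtain ⟨G, hG, hGt⟩ := exists_irr htalg
      have h1 := natDegree_eq hG hGt
      exact ⟨G, hG.ne_zero, hGt, Or.inl (by omega), hkey G hG hGt (by omega)⟩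
    · have hG : Irreducible (minpoly ℤ t) := minpoly.irreducible hint
      have hGt : Polynomial.aeval t (minpoly ℤ t) = 0 := minpoly.aeval ℤ t
      have h1 := natDegree_eq hG hGt
      exact ⟨minpoly ℤ t, hG.ne_zero, hGt, Or.inr ⟨minpoly.monic hint, by omega⟩,
        hkey _ hG hGt (by omega)⟩
  · -- number fields
    intro hT F hF
    obtain ⟨B, hB⟩ := hbound (Module.finrank ℚ F)
    refine ((s_fin3 F T B hT).union hE).subset ?_
    rintro t ⟨htF, hbad⟩
    by_cases htE : t ∈ E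
    · exact Or.inr htE
    left
    have halg : IsAlgebraic ℚ t := by
      have h1 : IsAlgebraic ℚ (⟨t, htF⟩ : F) := Algebra.IsAlgebraic.isAlgebraic _
      exact h1.algebraMap (A := ℂ)
    obtain ⟨G, hG, hGt⟩ := exists_irr halg
    refine ⟨htF, G, hG, hGt, fun a ha => ?_⟩
    have h1 := natDegree_eq hG hGt
    have h2 : (minpoly ℚ t).natDegree ≤ Module.finrank ℚ F := by
      have h3 : minpoly ℚ t = minpoly ℚ (⟨t, htF⟩ : F) :=
        minpoly.algebraMap_eq (algebraMap F ℂ).injective (⟨t, htF⟩ : F)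
      rw [h3]
      exact minpoly.natDegree_le _
    refine smooth_of_dvd (hne a _) (hvalD t G htE hG hGt hbad a ha) ?_
    rw [habs]
    exact hB a ha _ (by omega)
  · -- radical parameters
    intro α hα hα'
    have h1 := Pool.Agent.Y152.RP.arithMain (∑ a ∈ T, M * a.den ^ 2) 1 3 le_rfl α
      (fun l => (hα l).2) hα'
    refine (h1.union hE).subset ?_
    rintro t ⟨hrad, hbad⟩
    by_cases htE : t ∈ E
    · exact Or.inr htE
    left
    refine ⟨hrad, ?_⟩
    rintro ⟨f, -, G, hG, hGt, hp⟩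
    obtain ⟨p, hpp, hpD, hpz⟩ := hp 0
    have h2 := hval0 t G htE hG hGt hbad (α (f 0)) (hα _).1
    have h3 : (p : ℤ) ∣ ((M * (α (f 0)).den ^ 2 : ℕ) : ℤ) :=
      (Nat.prime_iff_prime_int.1 hpp).dvd_of_dvd_pow (hpz.trans h2)
    have h4 : p ∣ M * (α (f 0)).den ^ 2 := by exact_mod_cast h3
    have h5 := Nat.le_of_dvd (hden _) h4
    have h6 := Finset.single_le_sum (f := fun a : ℚ => M * a.den ^ 2)
      (fun _ _ => Nat.zero_le _) (hα (f 0)).1
    omega
  · -- roots of unity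
    rintro ⟨a, ha, ha0, ha1⟩
    have h1 := Pool.Agent.Y152.RP.unityMain (L := 1) (M := 1) le_rfl (fun _ => a) (fun _ => ha0)
      (fun _ => ha1) (M * a.den ^ 2)
    refine (h1.union hE).subset ?_
    rintro t ⟨hrad, hbad⟩
    by_cases htE : t ∈ E
    · exact Or.inr htE
    left
    refine ⟨hrad, ?_⟩
    rintro ⟨f, -, G, hG, hGt, hp⟩
    obtain ⟨p, hpp, hpD, hpz⟩ := hp 0
    have h2 := hval0 t G htE hG hGt hbad a ha
    have h3 : (p : ℤ) ∣ ((M * a.den ^ 2 : ℕ) : ℤ) :=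
      (Nat.prime_iff_prime_int.1 hpp).dvd_of_dvd_pow (hpz.trans h2)
    have h4 : p ∣ M * a.den ^ 2 := by exact_mod_cast h3
    have h5 := Nat.le_of_dvd (hden _) h4
    omega

end Pool.Agent.NH30.KU
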