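import Pool.Agent.NH30.KS.Rat
import Pool.Agent.NH30.KU.Stm

/-!
# Members of bounded degree of starshaped families (helper30): the estimate at one place
-/

set_option autoImplicit false

open Function MvPolynomial
open Pool.Agent.Y226 (nadd_le nsub_le nmul_le nmul_le' neq_of_sub_lt nnat)
open Pool.Agent.NH30.KS (Near norm_le_of_int)

namespace Pool.Agent.NH30.KU

section place

variable {p : ℕ} [hpf : Fact p.Prime]

theorem near_factor {x γ : ℂ_[p]} {ρ μ : ℝ} (hμ0 : 0 ≤ μ) (hμ1 : μ ≤ 1) (hμ : μ ≤ ‖γ‖)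
    (hρ0 : 0 ≤ ρ) (hρ1 : ρ ≤ 1) (h : ρ * ‖γ‖ < ‖x - γ‖) : ρ * μ * max 1 ‖x‖ ≤ ‖x - γ‖ := by
  rcases le_or_gt ‖x‖ ‖γ‖ with h1 | h1
  · rcases le_or_gt ‖γ‖ 1 with h2 | h2
    · rw [max_eq_left (h1.trans h2), mul_one]
      exact (mul_le_mul_of_nonneg_left hμ hρ0).trans h.le
    · have h3 : max 1 ‖x‖ ≤ ‖γ‖ := max_le h2.le h1
      calc ρ * μ * max 1 ‖x‖ ≤ ρ * 1 * ‖γ‖ := by gcongr
        _ = ρ * ‖γ‖ := by rw [mul_one]
        _ ≤ _ := h.le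
  · have h2 : ‖x - γ‖ = ‖x‖ := by
      apply neq_of_sub_lt
      rw [sub_sub_cancel_left, norm_neg]
      exact h1
    rw [h2]
    have hρμ : ρ * μ ≤ 1 := mul_le_one₀ hρ1 hμ0 hμ1
    rcases le_or_gt ‖x‖ 1 with h3 | h3
    · rw [max_eq_left h3, mul_one]
      calc ρ * μ ≤ 1 * μ := by gcongr
        _ = μ := one_mul _
        _ ≤ ‖γ‖ := hμ
        _ ≤ ‖x‖ := h1.le
    · rw [max_eq_right h3.le]
      exact mul_le_of_le_one_left (norm_nonneg _) hρμ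

/-- the difference of the values of a polynomial at two points near to each other -/
theorem poly_diff {K : Subfield ℂ} (Φ : ℂ →+* ℂ_[p]) (s : ℂ) {B : ℝ} (hs : ‖Φ s‖ ≤ 1)
    (f : Polynomial K) (hf : ∀ i, ‖Φ (f.coeff i : ℂ)‖ ≤ B) :
    ‖Φ (evalAt K s f) - Φ (f.coeff 0 : ℂ)‖ ≤ B * ‖Φ s‖ := by
  have hB : 0 ≤ B := (norm_nonneg _).trans (hf 0)
  have h1 : evalAt K s f = evalAt K s f.divX * s + (f.coeff 0 : ℂ) := by
    have h2 := congrArg (evalAt K s) f.divX_mul_X_add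
    rw [map_add, map_mul] at h2
    rw [← h2]
    unfold evalAt
    simp
    rfl
  have h2 : ‖Φ (evalAt K s f.divX)‖ ≤ B := by
    have h3 : evalAt K s f.divX = ∑ i ∈ Finset.range (f.divX.natDegree + 1),
        (f.coeff (i + 1) : ℂ) * s ^ i := by
      show Polynomial.aeval s f.divX = _
      rw [Polynomial.aeval_eq_sum_range]
      refine Finset.sum_congr rfl fun i _ => ?_
      rw [Polynomial.coeff_divX]
      rfl
    rw [h3, map_sum]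
    refine IsUltrametricDist.norm_sum_le_of_forall_le_of_nonneg hB fun i _ => ?_
    rw [map_mul, map_pow]
    refine nmul_le' (hf _) ?_
    rw [norm_pow]
    exact pow_le_one₀ (norm_nonneg _) hs
  rw [h1, map_add, add_sub_cancel_right, map_mul, norm_mul]
  exact mul_le_mul_of_nonneg_right h2 (norm_nonneg _)

/-- **The estimate.** -/
theorem near_of_zero {K : Subfield ℂ} {σ : Type} [Fintype σ] (C : σ → Finset K)
    (H : MvPolynomial σ (Polynomial K)) (k : σ → K → ℕ) (κ : K)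
    (hdeg : ∀ u ∈ H.support, ∀ j, u j ≤ ∑ γ ∈ C j, k j γ)
    (hH : MvPolynomial.map (Polynomial.evalRingHom 0) H =
      MvPolynomial.C κ * ∏ j, ∏ γ ∈ C j, (MvPolynomial.X j - MvPolynomial.C γ) ^ k j γ)
    (Φ : ℂ →+* ℂ_[p]) (s : ℂ) {μ ρ : ℝ} {D : ℕ} (hD : ∑ j, ∑ γ ∈ C j, k j γ ≤ D) (hμ0 : 0 < μ)
    (hμ1 : μ ≤ 1) (hκ : μ ≤ ‖Φ κ‖) (hC : ∀ j, ∀ γ ∈ C j, μ ≤ ‖Φ (γ : ℂ)‖)
    (hcoef : ∀ u i, ‖Φ (((H.coeff u).coeff i : K) : ℂ)‖ ≤ μ⁻¹) (hρ0 : 0 < ρ) (hρ1 : ρ ≤ 1)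
    (hs : ‖Φ s‖ < ρ ^ D * μ ^ (D + 2)) (ξ : σ → ℂ_[p])
    (hξ : eval₂ (Φ.comp (evalAt K s)) ξ H = 0) :
    ∃ j, ∃ γ ∈ C j, ‖ξ j - Φ (γ : ℂ)‖ ≤ ρ * ‖Φ (γ : ℂ)‖ := by
  classical
  by_contra hcon
  push Not at hcon
  set Ψ : K →+* ℂ_[p] := Φ.comp (algebraMap K ℂ) with hΨ
  have hΨv : ∀ z : K, Ψ z = Φ (z : ℂ) := fun _ => rfl
  have hs1 : ‖Φ s‖ ≤ 1 := by
    refine hs.le.trans ?_
    exact mul_le_one₀ (pow_le_one₀ hρ0.le hρ1) (by positivity) (pow_le_one₀ hμ0.le hμ1)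
  -- the value at s = 0
  have e1 : eval₂ (Ψ.comp (Polynomial.evalRingHom 0)) ξ H =
      Φ κ * ∏ j, ∏ γ ∈ C j, (ξ j - Φ (γ : ℂ)) ^ k j γ := by
    rw [← MvPolynomial.eval₂_map, hH, MvPolynomial.eval₂_mul, MvPolynomial.eval₂_C]
    congr 1
    rw [← MvPolynomial.coe_eval₂Hom, map_prod]
    refine Finset.prod_congr rfl fun j _ => ?_
    rw [map_prod]
    refine Finset.prod_congr rfl fun γ _ => ?_
    rw [map_pow, map_sub, MvPolynomial.coe_eval₂Hom, MvPolynomial.eval₂_X, MvPolynomial.eval₂_C]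
    rfl
  -- the upper bound
  set E : ℝ := ∏ j, max 1 ‖ξ j‖ ^ (∑ γ ∈ C j, k j γ) with hE
  have hEpos : 0 < E := Finset.prod_pos fun j _ => by positivity
  have hup : ‖Φ κ * ∏ j, ∏ γ ∈ C j, (ξ j - Φ (γ : ℂ)) ^ k j γ‖ ≤ μ⁻¹ * ‖Φ s‖ * E := by
    rw [← e1]
    have e2 : eval₂ (Ψ.comp (Polynomial.evalRingHom 0)) ξ H =
        -(∑ u ∈ H.support, (Φ (evalAt K s (H.coeff u)) - Φ (((H.coeff u).coeff 0 : K) : ℂ)) *
          ∏ i, ξ i ^ u i) := by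
      have e3 : ∑ u ∈ H.support, (Φ (evalAt K s (H.coeff u)) -
          Φ (((H.coeff u).coeff 0 : K) : ℂ)) * ∏ i, ξ i ^ u i =
          eval₂ (Φ.comp (evalAt K s)) ξ H - eval₂ (Ψ.comp (Polynomial.evalRingHom 0)) ξ H := by
        rw [MvPolynomial.eval₂_eq', MvPolynomial.eval₂_eq', ← Finset.sum_sub_distrib]
        refine Finset.sum_congr rfl fun u _ => ?_
        rw [sub_mul]
        congr 2
        rw [RingHom.comp_apply, Polynomial.coe_evalRingHom, ← Polynomial.coeff_zero_eq_eval_zero]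
        rfl
      rw [e3, hξ, zero_sub, neg_neg]
    rw [e2, norm_neg]
    refine IsUltrametricDist.norm_sum_le_of_forall_le_of_nonneg (by positivity) fun u hu => ?_
    rw [norm_mul, norm_prod]
    refine mul_le_mul ?_ ?_ (Finset.prod_nonneg fun _ _ => norm_nonneg _) (by positivity)
    · exact poly_diff Φ s hs1 (H.coeff u) (hcoef u)
    · refine Finset.prod_le_prod (fun _ _ => norm_nonneg _) fun j _ => ?_
      rw [norm_pow]
      calc ‖ξ j‖ ^ u j ≤ max 1 ‖ξ j‖ ^ u j := by gcongr; exact le_max_right _ _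
        _ ≤ _ := pow_le_pow_right₀ (le_max_left _ _) (hdeg u hu j)
  -- the lower bound
  have hlow : μ * (ρ * μ) ^ D * E ≤ ‖Φ κ * ∏ j, ∏ γ ∈ C j, (ξ j - Φ (γ : ℂ)) ^ k j γ‖ := by
    have hρμ : ρ * μ ≤ 1 := mul_le_one₀ hρ1 hμ0.le hμ1
    rw [norm_mul, norm_prod, mul_assoc]
    refine mul_le_mul hκ ?_ (by positivity) (norm_nonneg _)
    calc (ρ * μ) ^ D * E ≤ (ρ * μ) ^ (∑ j, ∑ γ ∈ C j, k j γ) * E := by
          gcongr ?_ * _
          exact pow_le_pow_of_le_one (by positivity) hρμ hD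
      _ = ∏ j, ∏ γ ∈ C j, (ρ * μ * max 1 ‖ξ j‖) ^ k j γ := by
          rw [hE, ← Finset.prod_pow_eq_pow_sum, ← Finset.prod_mul_distrib]
          refine Finset.prod_congr rfl fun j _ => ?_
          rw [← Finset.prod_pow_eq_pow_sum, ← Finset.prod_pow_eq_pow_sum,
            ← Finset.prod_mul_distrib]
          refine Finset.prod_congr rfl fun γ _ => ?_
          rw [mul_pow (ρ * μ)]
      _ ≤ _ := by
          refine Finset.prod_le_prod (fun _ _ => Finset.prod_nonneg fun _ _ => by positivity)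
            fun j _ => ?_
          rw [norm_prod]
          refine Finset.prod_le_prod (fun _ _ => by positivity) fun γ hγ => ?_
          rw [norm_pow]
          refine pow_le_pow_left₀ (by positivity) ?_ _
          exact near_factor hμ0.le hμ1 (hC j γ hγ) hρ0.le hρ1 (hcon j γ hγ)
  have h3 : μ * (ρ * μ) ^ D ≤ μ⁻¹ * ‖Φ s‖ := le_of_mul_le_mul_right (hlow.trans hup) hEpos
  have h4 : μ * (μ * (ρ * μ) ^ D) ≤ ‖Φ s‖ := by
    calc μ * (μ * (ρ * μ) ^ D) ≤ μ * (μ⁻¹ * ‖Φ s‖) := by gcongr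
      _ = ‖Φ s‖ := by rw [← mul_assoc, mul_inv_cancel₀ hμ0.ne', one_mul]
  have h5 : μ * (μ * (ρ * μ) ^ D) = ρ ^ D * μ ^ (D + 2) := by ring
  rw [h5] at h4
  exact absurd hs (not_lt.2 h4)

end place

/-- Finitely many algebraic numbers are bounded at all places by the absolute values of an
integer. -/
theorem bound_unif (W : Set ℂ) (hW : W.Finite) (halg : ∀ z ∈ W, IsAlgebraic ℚ z) :
    ∃ M : ℕ, 0 < M ∧ ∀ (p : ℕ) [Fact p.Prime] (Φ : ℂ →+* ℂ_[p]), ∀ z ∈ W,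
      ‖(M : ℂ_[p])‖ * ‖Φ z‖ ≤ 1 ∧ (z ≠ 0 → ‖(M : ℂ_[p])‖ ≤ ‖Φ z‖) := by
  classical
  have hone : ∀ z : ℂ, IsAlgebraic ℚ z → ∃ N : ℕ, 0 < N ∧ ∀ (p : ℕ) [Fact p.Prime]
      (Φ : ℂ →+* ℂ_[p]), ‖(N : ℂ_[p])‖ * ‖Φ z‖ ≤ 1 := by
    intro z hz
    have hz' : IsAlgebraic ℤ z := (IsFractionRing.isAlgebraic_iff ℤ ℚ ℂ).2 hz
    obtain ⟨a, ha0, hint⟩ := hz'.exists_integral_multiple
    refine ⟨a.natAbs, Int.natAbs_pos.2 ha0, fun p _ Φ => ?_⟩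
    have h1 := norm_le_of_int Φ hint
    rw [zsmul_eq_mul, map_mul, map_intCast, norm_mul] at h1
    have h2 : ‖((a.natAbs : ℕ) : ℂ_[p])‖ = ‖((a : ℤ) : ℂ_[p])‖ := by
      obtain ⟨m, rfl | rfl⟩ := a.eq_nat_or_neg
      · rw [Int.natAbs_natCast, Int.cast_natCast]
      · rw [Int.natAbs_neg, Int.natAbs_natCast, Int.cast_neg, Int.cast_natCast, norm_neg]
    rw [h2]
    exact h1
  have h2 : ∀ z : ℂ, ∃ N : ℕ, 0 < N ∧ (IsAlgebraic ℚ z → ∀ (p : ℕ) [Fact p.Prime]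
      (Φ : ℂ →+* ℂ_[p]), ‖(N : ℂ_[p])‖ * ‖Φ z‖ ≤ 1 ∧ (z ≠ 0 → ‖(N : ℂ_[p])‖ ≤ ‖Φ z‖)) := by
    intro z
    by_cases hz : IsAlgebraic ℚ z
    · obtain ⟨N1, hN1, h1⟩ := hone z hz
      obtain ⟨N2, hN2, h2⟩ := hone z⁻¹ hz.inv
      refine ⟨N1 * N2, Nat.mul_pos hN1 hN2, fun _ p _ Φ => ⟨?_, fun hz0 => ?_⟩⟩
      · push_cast
        rw [norm_mul, mul_right_comm]
        exact mul_le_one₀ (h1 p Φ) (norm_nonneg _) (nnat N2)
      · have h3 := h2 p Φ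
        rw [map_inv₀, norm_inv, ← div_eq_mul_inv] at h3
        have hpos : 0 < ‖Φ z‖ := norm_pos_iff.2 ((map_ne_zero Φ).2 hz0)
        rw [div_le_one hpos] at h3
        push_cast
        rw [norm_mul]
        calc ‖(N1 : ℂ_[p])‖ * ‖(N2 : ℂ_[p])‖ ≤ 1 * ‖(N2 : ℂ_[p])‖ := by
              gcongr
              exact nnat N1
          _ = ‖(N2 : ℂ_[p])‖ := one_mul _
          _ ≤ _ := h3
    · exact ⟨1, one_pos, fun h => absurd h hz⟩
  choose N hN0 hN using h2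
  refine ⟨∏ z ∈ hW.toFinset, N z, Finset.prod_pos fun z _ => hN0 z, fun p _ Φ z hz => ?_⟩
  have h3 : ‖((∏ z ∈ hW.toFinset, N z : ℕ) : ℂ_[p])‖ ≤ ‖(N z : ℂ_[p])‖ := by
    rw [← Finset.mul_prod_erase _ _ (hW.mem_toFinset.2 hz)]
    push_cast
    rw [norm_mul]
    have h4 : ‖∏ z ∈ hW.toFinset.erase z, ((N z : ℕ) : ℂ_[p])‖ ≤ 1 := by
      have := nnat (C := ℂ_[p]) (∏ z ∈ hW.toFinset.erase z, N z)
      push_cast at this
      exact this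
    exact mul_le_of_le_one_right (norm_nonneg _) h4
  obtain ⟨h5, h6⟩ := hN z (halg z hz) p Φ
  exact ⟨(mul_le_mul_of_nonneg_right h3 (norm_nonneg _)).trans h5, fun h0 => h3.trans (h6 h0)⟩

end Pool.Agent.NH30.KU
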